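import Pool.Agent.H39.UI.Piece

/-!
Module PIECEM. All splittings into two pieces of size at least `L`.

Statement: for `a ≤ A`, `i + i' = n + a`, `u + u' = w + a + 2 + 2 k`, `L ≤ i`, `L ≤ i'`:
`bc i u * bc i' u' ≤ C n^(2 k') ...`: precisely `≤ C * exp (-c * L) * (C / n^2)^k * bc n w`.

Proof. Let `i ≤ i'` (symmetric). If `bc i u * bc i' u' = 0`, trivial; otherwise `u = i + 2 - 2 g` for some `g` with `2 g ≤ i + 1`
(`bc_supp`: `1 ≤ u ≤ i + 2`, `u = i mod 2`), and `u' = w + a - i + 2 g + 2 k`. If `i ≤ δ n` (`δ` of `piece`): `piece` with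
`C ((i+1)/n)^2 ≤ 1` when `i + 1 ≤ n/√C` (make `δ` smaller), so the bound is `C θ^i (C/n^2)^k bc n w ≤ C θ^L (..)^k bc n w`. If `i > δ n`:
`mack` (UP/Mack) at `n' = n + a`, `w' = w + a`, `e = 0`: `bc i u bc i' u' ≤ exp (-c n') (C/n'^2)^k bc (n+a) (w+a)`, `rb_up`, and
`L ≤ n + a` (so `exp (-c n') ≤ C exp (-c L)`). The number `L` is a natural number.
-/

set_option autoImplicit false

namespace UI39

open UN39

private theorem pieceM_small {C2 δ' n : ℝ} {N4 : ℕ} (hC2 : 0 < C2) (hδ0 : 0 < δ')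
    (h4 : δ' ≤ 1 / (2 * √C2)) (hN4 : 1 / δ' ≤ N4) (h5 : (N4 : ℝ) ≤ n) {i : ℝ} (hi0 : 0 ≤ i)
    (hiδ : i ≤ δ' * n) : C2 * (i + 1) ^ 2 / n ^ 2 ≤ 1 := by
  have hsq : 0 < √C2 := Real.sqrt_pos.2 hC2
  have hn0 : 0 < n := lt_of_lt_of_le (lt_of_lt_of_le (by positivity) hN4) h5
  have h6 : 1 ≤ δ' * n := by
    rw [div_le_iff₀ hδ0] at hN4
    nlinarith
  have h7 : δ' * n ≤ 1 / (2 * √C2) * n := by gcongr
  have h8 : 1 / (2 * √C2) * n + 1 / (2 * √C2) * n = n / √C2 := by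
    field_simp
    norm_num
  have h3 : i + 1 ≤ n / √C2 := by linarith
  rw [div_le_one (by positivity)]
  calc C2 * (i + 1) ^ 2 ≤ C2 * (n / √C2) ^ 2 := by gcongr
    _ = n ^ 2 := by
      rw [div_pow, Real.sq_sqrt hC2.le]
      field_simp

private theorem pieceM_exp {θ c : ℝ} (h0 : 0 < θ) (h1 : θ < 1) (hc : c ≤ -Real.log θ) {i L : ℕ}
    (hL : L ≤ i) : θ ^ i ≤ Real.exp (-c * L) := by
  have h3 : θ ^ i ≤ θ ^ L := pow_le_pow_of_le_one h0.le h1.le hL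
  have h4 : θ ^ L = Real.exp (Real.log θ * L) := by
    rw [mul_comm, Real.exp_nat_mul, Real.exp_log h0]
  rw [h4] at h3
  refine h3.trans (Real.exp_le_exp.2 ?_)
  have hL0 : (0 : ℝ) ≤ L := Nat.cast_nonneg L
  nlinarith

private theorem pieceM_a {ω1 ω2 : ℝ} (h1 : 0 < ω1) (h2 : ω2 < 1) (A : ℕ) :
    ∃ c C δ : ℝ, ∃ n0 : ℕ, 0 < c ∧ 0 < C ∧ 0 < δ ∧
    ∀ n w i i' u u' k a L : ℕ, n0 ≤ n → ω1 * n ≤ w → (w : ℝ) ≤ ω2 * n → w % 2 = n % 2 → a ≤ A →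
      i + i' = n + a → u + u' = w + a + 2 + 2 * k → L ≤ i → (i : ℝ) ≤ δ * n →
      bc i u * bc i' u' ≤ C * Real.exp (-c * L) * (C / (n : ℝ) ^ 2) ^ k * bc n w := by
  obtain ⟨θ, C2, δ2, N2, hθ0, hθ1, hC2, hδ2, hpc⟩ := piece h1 h2 A
  set δ' : ℝ := min (min δ2 ω1) (1 / (2 * √C2)) with hδ'
  have hsq : 0 < √C2 := Real.sqrt_pos.2 hC2
  have hδ0 : 0 < δ' := by positivity
  have hd1 : δ' ≤ δ2 := (min_le_left _ _).trans (min_le_left _ _)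
  have hd2 : δ' ≤ ω1 := (min_le_left _ _).trans (min_le_right _ _)
  have hd3 : δ' ≤ 1 / (2 * √C2) := min_le_right _ _
  obtain ⟨N4, hN4⟩ := exists_nat_ge (1 / δ')
  have hlog := Real.log_neg hθ0 hθ1
  refine ⟨-Real.log θ, C2, δ', N2 + N4 + 1, by linarith, hC2, hδ0, ?_⟩
  intro n w i i' u u' k a L hn ha hb hpar haA hii huu hL hiδ
  have hn0 : (0 : ℝ) < n := by exact_mod_cast (by omega : 0 < n)
  have hbn := bc_nonneg n w
  by_cases hz : bc i u = 0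
  · rw [hz, zero_mul]
    positivity
  obtain ⟨s1, s2, s3⟩ := bc_supp hz
  obtain ⟨g, hg1, hg2⟩ : ∃ g, u = i + 2 - 2 * g ∧ 2 * g ≤ i + 1 :=
    ⟨(i + 2 - u) / 2, by omega, by omega⟩
  have hiw : i ≤ w := by
    have h3 : (i : ℝ) ≤ w := hiδ.trans ((mul_le_mul_of_nonneg_right hd2 hn0.le).trans ha)
    exact_mod_cast h3
  have e1 := hpc n w i g k a (by omega) ha hb hpar haA
    (hiδ.trans (mul_le_mul_of_nonneg_right hd1 hn0.le)) (by omega)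
  have hN4n : (N4 : ℝ) ≤ n := by exact_mod_cast (by omega : N4 ≤ n)
  have e2 := pieceM_small hC2 hδ0 hd3 hN4 hN4n (Nat.cast_nonneg i) hiδ
  have e3 : (C2 * ((i : ℝ) + 1) ^ 2 / (n : ℝ) ^ 2) ^ g ≤ 1 := pow_le_one₀ (by positivity) e2
  have e4 := pieceM_exp hθ0 hθ1 le_rfl hL
  have e5 : bc i u * bc i' u' = bc i (i + 2 - 2 * g) * bc (n + a - i) (w + a - i + 2 * g + 2 * k) := by
    rw [hg1]
    congr 2 <;> omega
  rw [e5]
  refine e1.trans ?_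
  calc C2 * θ ^ i * (C2 * ((i : ℝ) + 1) ^ 2 / (n : ℝ) ^ 2) ^ g * (C2 / (n : ℝ) ^ 2) ^ k * bc n w
      ≤ C2 * Real.exp (-(-Real.log θ) * L) * 1 * (C2 / (n : ℝ) ^ 2) ^ k * bc n w := by gcongr
    _ = C2 * Real.exp (-(-Real.log θ) * L) * (C2 / (n : ℝ) ^ 2) ^ k * bc n w := by ring

private theorem pieceM_b {ω1 ω2 δ' : ℝ} (h1 : 0 < ω1) (h2 : ω2 < 1) (A : ℕ) (hδ0 : 0 < δ') :
    ∃ c C : ℝ, ∃ n0 : ℕ, 0 < c ∧ 0 < C ∧
    ∀ n w i i' u u' k a L : ℕ, n0 ≤ n → ω1 * n ≤ w → (w : ℝ) ≤ ω2 * n → w % 2 = n % 2 → a ≤ A →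
      i + i' = n + a → u + u' = w + a + 2 + 2 * k → L ≤ i → i ≤ i' → δ' * n ≤ i →
      bc i u * bc i' u' ≤ C * Real.exp (-c * L) * (C / (n : ℝ) ^ 2) ^ k * bc n w := by
  obtain ⟨C1, N1, hC1, hN1, hAN, hup⟩ := piece_up h1 h2 A
  obtain ⟨c3, C3, N3, hc3, hC3, hmk⟩ :=
    mack (ω1 := ω1 / 2) (ω2 := (1 + ω2) / 2) (δ := δ' / 2) (by linarith) (by linarith) (by linarith)
  refine ⟨c3, C1 + C3, N1 + N3, hc3, by linarith, ?_⟩
  intro n w i i' u u' k a L hn ha hb hpar haA hii huu hL hle hiδ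
  have hn0 : (0 : ℝ) < n := by exact_mod_cast (by omega : 0 < n)
  have hbn := bc_nonneg n w
  obtain ⟨r1, r2, r3⟩ := hup n w a (by omega) ha hb haA
  have han : a ≤ n := by omega
  have hd : δ' / 2 * ((n + a : ℕ) : ℝ) ≤ i := by
    have h3 : ((n + a : ℕ) : ℝ) ≤ 2 * n := by
      push_cast
      have : (a : ℝ) ≤ n := by exact_mod_cast han
      linarith
    have h4 : δ' / 2 * ((n + a : ℕ) : ℝ) ≤ δ' / 2 * (2 * n) := by gcongr
    linarith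
  have hii' : (i : ℝ) ≤ i' := by exact_mod_cast hle
  have e1 := hmk (n + a) (w + a) i u i' u' 0 k (by omega) r1 r2 (by omega) (by omega) (by omega)
    hd (hd.trans hii')
  have hLn : (L : ℝ) ≤ ((n + a : ℕ) : ℝ) := by exact_mod_cast (by omega : L ≤ n + a)
  have e2 : Real.exp (-c3 * ((n + a : ℕ) : ℝ)) ≤ Real.exp (-c3 * L) := by
    refine Real.exp_le_exp.2 ?_
    nlinarith
  have e3 : (C3 / ((n + a : ℕ) : ℝ) ^ 2) ^ k ≤ ((C1 + C3) / (n : ℝ) ^ 2) ^ k := by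
    have h3 : (n : ℝ) ≤ ((n + a : ℕ) : ℝ) := by exact_mod_cast Nat.le_add_right n a
    have h4 : C3 ≤ C1 + C3 := by linarith
    gcongr
  have hbna := bc_nonneg (n + a) (w + a)
  have e5 : C1 ≤ C1 + C3 := by linarith
  calc bc i u * bc i' u' ≤ Real.exp (-c3 * ((n + a : ℕ) : ℝ)) * (C3 / ((n + a : ℕ) : ℝ) ^ 2) ^ k *
        bc (n + a) (w + a) := e1
    _ ≤ Real.exp (-c3 * L) * ((C1 + C3) / (n : ℝ) ^ 2) ^ k * (C1 * bc n w) := by gcongr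
    _ ≤ Real.exp (-c3 * L) * ((C1 + C3) / (n : ℝ) ^ 2) ^ k * ((C1 + C3) * bc n w) := by gcongr
    _ = (C1 + C3) * Real.exp (-c3 * L) * ((C1 + C3) / (n : ℝ) ^ 2) ^ k * bc n w := by ring

private theorem pieceM_mono {c1 c C1 C : ℝ} (hc : c ≤ c1) (h0 : 0 < C1) (hC : C1 ≤ C) (n w k L : ℕ) :
    C1 * Real.exp (-c1 * L) * (C1 / (n : ℝ) ^ 2) ^ k * bc n w
      ≤ C * Real.exp (-c * L) * (C / (n : ℝ) ^ 2) ^ k * bc n w := by
  have hbn := bc_nonneg n w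
  have hL0 : (0 : ℝ) ≤ L := Nat.cast_nonneg L
  have e1 : Real.exp (-c1 * L) ≤ Real.exp (-c * L) := Real.exp_le_exp.2 (by nlinarith)
  have hC0 : 0 < C := lt_of_lt_of_le h0 hC
  gcongr

theorem pieceM {ω1 ω2 : ℝ} (h1 : 0 < ω1) (h2 : ω2 < 1) (A : ℕ) : ∃ c C : ℝ, ∃ n0 : ℕ, 0 < c ∧ 0 < C ∧
    ∀ n w i i' u u' k a L : ℕ, n0 ≤ n → ω1 * n ≤ w → (w : ℝ) ≤ ω2 * n → w % 2 = n % 2 → a ≤ A →
      i + i' = n + a → u + u' = w + a + 2 + 2 * k → L ≤ i → L ≤ i' →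
      bc i u * bc i' u' ≤ C * Real.exp (-c * L) * (C / (n : ℝ) ^ 2) ^ k * bc n w := by
  obtain ⟨c1, C1, δ, N1, hc1, hC1, hδ, ha1⟩ := pieceM_a h1 h2 A
  obtain ⟨c2, C2, N2, hc2, hC2, ha2⟩ := pieceM_b h1 h2 A hδ
  refine ⟨min c1 c2, C1 + C2, N1 + N2, lt_min hc1 hc2, by linarith, ?_⟩
  have key : ∀ n w i i' u u' k a L : ℕ, N1 + N2 ≤ n → ω1 * n ≤ w → (w : ℝ) ≤ ω2 * n →
      w % 2 = n % 2 → a ≤ A → i + i' = n + a → u + u' = w + a + 2 + 2 * k → L ≤ i → i ≤ i' →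
      bc i u * bc i' u' ≤ (C1 + C2) * Real.exp (-(min c1 c2) * L) *
        ((C1 + C2) / (n : ℝ) ^ 2) ^ k * bc n w := by
    intro n w i i' u u' k a L hn ha hb hpar haA hii huu hL hle
    rcases le_total (i : ℝ) (δ * n) with h | h
    · exact (ha1 n w i i' u u' k a L (by omega) ha hb hpar haA hii huu hL h).trans
        (pieceM_mono (min_le_left _ _) hC1 (by linarith) n w k L)
    · exact (ha2 n w i i' u u' k a L (by omega) ha hb hpar haA hii huu hL hle h).trans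
        (pieceM_mono (min_le_right _ _) hC2 (by linarith) n w k L)
  intro n w i i' u u' k a L hn ha hb hpar haA hii huu hL hL'
  rcases le_total i i' with h | h
  · exact key n w i i' u u' k a L hn ha hb hpar haA hii huu hL h
  · rw [mul_comm (bc i u)]
    exact key n w i' i u' u k a L hn ha hb hpar haA (by omega) (by omega) hL' h

end UI39
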