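import Pool.Agent.H39.QD.Defs
import Pool.Agent.H39.UP.Mack
import Pool.Agent.H39.UP.Bet
import Pool.Agent.H39.UP.Rb
import Pool.Agent.H39.UN.LawA
import Pool.Agent.H39.UN.Vnum

/-!
P186 (MP_bcc40c_pr, Q2), part ISO: isoperimetry of planar balls. Definitions.

`Cf f α F` : the surface glued from the faces in `F` is connected.
`inn α F`  : the pairs of `α` inside `F` (identity elsewhere);  `inn α F * α` : the other pairs.
`In f F p` : the planar connected gluings `β` of the faces in `F` with exactly `p` unglued sides (legs).
-/

set_option autoImplicit false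

namespace UI39

open Equiv HG39 QD39 UN39

variable {D : Type} [Fintype D] [DecidableEq D]

/-- the surface glued from the faces in `F` is connected -/
def Cf (f α : Perm D) (F : Finset D) : Prop :=
  ∀ S : D → Prop, (∀ d ∈ F, S d → S (f d)) → (∀ d ∈ F, α d ∈ F → S d → S (α d)) →
    (∃ d ∈ F, S d) → ∀ e ∈ F, S e

open Classical in
/-- the pairs of `α` inside `F` -/
noncomputable def inn (α : Perm D) (F : Finset D) : Perm D :=
  if h : ∀ d, α (α d) = d then
    { toFun := fun d => if d ∈ F ∧ α d ∈ F then α d else d
      invFun := fun d => if d ∈ F ∧ α d ∈ F then α d else d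
      left_inv := fun d => by
        by_cases h1 : d ∈ F ∧ α d ∈ F
        · simp [h1, h]
        · simp [h1]
      right_inv := fun d => by
        by_cases h1 : d ∈ F ∧ α d ∈ F
        · simp [h1, h]
        · simp [h1] }
  else 1

/-- the legs of `F` -/
noncomputable def legs (α : Perm D) (F : Finset D) : Finset D := F.filter fun d => α d ∉ F

/-- planar connected gluings of the faces in `F` with `p` legs (the fixed points in `F`) -/
def In (f : Perm D) (F : Finset D) (p : ℕ) : Set (Perm D) :=
  {β | (∀ d, β (β d) = d) ∧ (∀ d, d ∉ F → β d = d) ∧ (∀ d ∈ F, β d ∈ F) ∧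
    (F.filter fun d => β d = d).card = p ∧ Cf f β F ∧
    6 * vb f β F + 2 * F.card + 3 * p = 3 * F.card + 12}

end UI39
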