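import Pool.Agent.H39.UI.Defs

/-!
Module EXP (real analysis). Exponential smallness of the bound in `pai`.

Proof. `rb` (UP/Rb) gives `lp < lamc`, `C0`, `δ0`: `bc (n-j) (v-j+2k) ≤ lp^j (C0/n^2)^k bc n v` for `j ≤ δ0 n`. In the sum over `u` only
`u = v - j + 2 k` contributes (`bc_supp`: parity; `v - j ≥ 0` is a natural number because `j ≤ v`), so the sum is at most
`lp^j bc n v Σ_k (C0/n^2)^k ≤ 2 lp^j bc n v` for `n` large. `b0 m ≤ 2 lamc^(-m)` (`b0_le`). Let `ρ = lp / lamc < 1`. With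
`j = (s - p)/2 + 1`, `m = (s + p)/2`: `b0 m * lp^j ≤ 2 lp ρ^(s/2) (lamc lp)^(-p/2)`. For `0 < x ≤ 1`:
`C(s+p, p) x^p ≤ (1+x)^(s+p)`, so with `p ≤ δ s`, `δ ≤ 1`:
`C(s+p,p) 3^p (lamc lp)^(-p/2) ≤ ((1+x)^2 (x^(-1) M)^δ)^s`, `M = max 1 (3 (lamc lp)^(-1/2))`. Choose `x` with `(1+x)^2 ≤ ρ^(-1/8)`, then
`δ` with `(M/x)^δ ≤ ρ^(-1/8)`: the product is at most `C (ρ^(1/4))^s`. (`p ≤ δ s` as reals; `p ≤ s`.)
-/

set_option autoImplicit false

namespace UI39

open UN39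

private theorem sum_par {f : ℕ → ℝ} (hf : ∀ u, 0 ≤ f u) (a b : ℕ) (h0 : ∀ u, u % 2 ≠ a % 2 → f u = 0) :
    ∑ u ∈ Finset.Icc a b, f u ≤ ∑ k ∈ Finset.range (b + 1), f (a + 2 * k) := by
  classical
  have h1 : ∑ u ∈ Finset.Icc a b, f u = ∑ u ∈ (Finset.Icc a b).filter (fun u => u % 2 = a % 2), f u := by
    rw [Finset.sum_filter]
    refine Finset.sum_congr rfl ?_
    intro u _
    split_ifs with h
    · rfl
    · exact h0 u h
  have h2 : ∑ k ∈ Finset.range (b + 1), f (a + 2 * k) =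
      ∑ u ∈ (Finset.range (b + 1)).image (fun k => a + 2 * k), f u := by
    rw [Finset.sum_image]
    intro x _ y _ hxy
    have h3 : a + 2 * x = a + 2 * y := hxy
    omega
  rw [h1, h2]
  refine Finset.sum_le_sum_of_subset_of_nonneg ?_ (fun u _ _ => hf u)
  intro u hu
  rw [Finset.mem_filter, Finset.mem_Icc] at hu
  obtain ⟨⟨h3, h4⟩, h5⟩ := hu
  rw [Finset.mem_image]
  refine ⟨(u - a) / 2, ?_, ?_⟩
  · rw [Finset.mem_range]
    omega
  · show a + 2 * ((u - a) / 2) = u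
    omega

private theorem geo_two {q : ℝ} (h0 : 0 ≤ q) (h1 : q ≤ 1 / 2) (K : ℕ) :
    ∑ k ∈ Finset.range K, q ^ k ≤ 2 := by
  have h2 : ∑ k ∈ Finset.range K, q ^ k ≤ ∑ k ∈ Finset.range K, (1 / 2 : ℝ) ^ k :=
    Finset.sum_le_sum fun k _ => pow_le_pow_left₀ h0 h1 k
  refine h2.trans ?_
  rw [geom_sum_eq (by norm_num)]
  have h3 : (0 : ℝ) ≤ (1 / 2) ^ K := by positivity
  rw [div_le_iff_of_neg (by norm_num)]
  linarith

private theorem choose_le_pow (s p : ℕ) {x : ℝ} (hx : 0 < x) :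
    ((s + p).choose p : ℝ) * x ^ p ≤ (1 + x) ^ (s + p) := by
  rw [add_comm 1 x, add_pow x 1 (s + p)]
  have h1 : ((s + p).choose p : ℝ) * x ^ p = x ^ p * 1 ^ (s + p - p) * ((s + p).choose p : ℝ) := by
    rw [one_pow]
    ring
  rw [h1]
  exact Finset.single_le_sum (f := fun m => x ^ m * 1 ^ (s + p - m) * ((s + p).choose m : ℝ))
    (fun i _ => by positivity) (Finset.mem_range.2 (by omega))

/-- the main estimate for the squares -/
private theorem key_sq {lp lc a x Y δ : ℝ} (hlp : 0 < lp) (hlc : 0 < lc) (hx : 0 < x)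
    (ha : lp / lc = Real.exp (-a)) (hxa : 16 * x ≤ a) (hY : Y = max 1 (9 / (lc * lp)) / x ^ 2)
    (hx1 : x ≤ 1) (hδ1 : δ ≤ 1)
    (hδ : δ * Real.log Y ≤ a / 4) {s p j m : ℕ} (hps : (p : ℝ) ≤ δ * s) (hj : 2 * j + p = s + 2)
    (hm : 2 * m = s + p) :
    ((s + p).choose p : ℝ) * 3 ^ p * (1 / lc) ^ m * lp ^ j ≤ lp * Real.exp (-(a / 4) * s) := by
  have hY1 : 1 ≤ Y := by
    rw [hY, one_le_div (by positivity)]
    exact (pow_le_one₀ hx.le hx1).trans (le_max_left _ _)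
  have hY0 : 0 < Y := by linarith
  have hlY : 0 ≤ Real.log Y := Real.log_nonneg hY1
  have hp1 : (p : ℝ) ≤ s := hps.trans (by nlinarith [Nat.cast_nonneg (α := ℝ) s])
  obtain ⟨c, hc⟩ : ∃ c : ℝ, c = ((s + p).choose p : ℝ) := ⟨_, rfl⟩
  have hc0 : 0 ≤ c := by rw [hc]; positivity
  have h1 : c * x ^ p ≤ Real.exp (x * (2 * s)) := by
    have h2 : c * x ^ p ≤ (1 + x) ^ (s + p) := by
      rw [hc]
      exact choose_le_pow s p hx
    refine h2.trans ?_
    have h3 : (1 + x) ^ (s + p) ≤ (Real.exp x) ^ (s + p) :=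
      pow_le_pow_left₀ (by linarith) (by linarith [Real.add_one_le_exp x]) _
    refine h3.trans ?_
    rw [← Real.exp_nat_mul]
    refine Real.exp_le_exp.2 ?_
    push_cast
    nlinarith
  have hYp : Y ^ p ≤ Real.exp (a / 4 * s) := by
    have h2 : Y ^ p = Real.exp (p * Real.log Y) := by
      rw [mul_comm, Real.exp_mul, Real.exp_log hY0, Real.rpow_natCast]
    rw [h2]
    refine Real.exp_le_exp.2 ?_
    calc (p : ℝ) * Real.log Y ≤ (δ * s) * Real.log Y := mul_le_mul_of_nonneg_right hps hlY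
      _ = (δ * Real.log Y) * s := by ring
      _ ≤ a / 4 * s := mul_le_mul_of_nonneg_right hδ (Nat.cast_nonneg s)
  rw [← hc]
  have hX0 : 0 ≤ c * 3 ^ p * (1 / lc) ^ m * lp ^ j := by positivity
  refine (abs_le_of_sq_le_sq' ?_ (by positivity)).2
  have e1 : (c * 3 ^ p * (1 / lc) ^ m * lp ^ j) ^ 2 =
      (c * x ^ p) ^ 2 * lp ^ 2 * (lp / lc) ^ s * (9 / (lc * lp) / x ^ 2) ^ p := by
    have a1 : ((1 / lc) ^ m) ^ 2 = (1 / lc) ^ s * (1 / lc) ^ p := by
      rw [← pow_mul, mul_comm m 2, hm, pow_add]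
    have a2 : (lp ^ j) ^ 2 * lp ^ p = lp ^ s * lp ^ 2 := by
      rw [← pow_mul, mul_comm j 2, ← pow_add, hj, pow_add]
    have a3 : (lp ^ j) ^ 2 = lp ^ s * lp ^ 2 * (1 / lp) ^ p := by
      rw [← a2, mul_assoc, ← mul_pow, mul_one_div_cancel hlp.ne', one_pow, mul_one]
    have a4 : (9 / (lc * lp) / x ^ 2) ^ p = (3 ^ p) ^ 2 * (1 / lc) ^ p * (1 / lp) ^ p / (x ^ p) ^ 2 := by
      rw [← pow_mul 3 p 2, mul_comm p 2, pow_mul 3 2 p, ← pow_mul x p 2, mul_comm p 2, pow_mul x 2 p,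
        ← mul_pow, ← mul_pow, ← div_pow]
      congr 1
      field_simp
      norm_num
    have a5 : (x ^ p) ^ 2 ≠ 0 := by positivity
    rw [mul_pow, mul_pow, mul_pow, mul_pow, a1, a3, a4, div_pow lp lc s]
    rw [one_div_pow lc s]
    field_simp
  rw [e1, ha]
  have b1 : (c * x ^ p) ^ 2 ≤ Real.exp (x * (4 * s)) := by
    have h2 := pow_le_pow_left₀ (by positivity) h1 2
    refine h2.trans (le_of_eq ?_)
    rw [← Real.exp_nat_mul]
    congr 1
    push_cast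
    ring
  have b2 : Real.exp (-a) ^ s = Real.exp (-(a * s)) := by
    rw [← Real.exp_nat_mul]
    congr 1
    ring
  have b3 : (9 / (lc * lp) / x ^ 2) ^ p ≤ Real.exp (a / 4 * s) := by
    refine le_trans (pow_le_pow_left₀ (by positivity) ?_ p) hYp
    rw [hY]
    exact div_le_div_of_nonneg_right (le_max_right _ _) (by positivity)
  calc (c * x ^ p) ^ 2 * lp ^ 2 * Real.exp (-a) ^ s * (9 / (lc * lp) / x ^ 2) ^ p
      ≤ Real.exp (x * (4 * s)) * lp ^ 2 * Real.exp (-a) ^ s * Real.exp (a / 4 * s) := by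
        gcongr
    _ = lp ^ 2 * Real.exp (x * (4 * s) + -(a * s) + a / 4 * s) := by
        rw [b2, Real.exp_add, Real.exp_add]
        ring
    _ ≤ lp ^ 2 * Real.exp (-(a / 4) * s + -(a / 4) * s) := by
        refine mul_le_mul_of_nonneg_left (Real.exp_le_exp.2 ?_) (by positivity)
        nlinarith [Nat.cast_nonneg (α := ℝ) s]
    _ = (lp * Real.exp (-(a / 4) * s)) ^ 2 := by
        rw [Real.exp_add]
        ring

theorem exps {ω1 ω2 : ℝ} (h1 : 0 < ω1) (h2 : ω2 < 1) : ∃ δ c C : ℝ, ∃ n0 : ℕ, 0 < δ ∧ δ ≤ 1 ∧ 0 < c ∧ 0 < C ∧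
    ∀ n v s p j : ℕ, n0 ≤ n → ω1 * n ≤ v → (v : ℝ) ≤ ω2 * n → v % 2 = n % 2 → 1 ≤ s → (s : ℝ) ≤ δ * n →
      (p : ℝ) ≤ δ * s → 2 * j + p = s + 2 →
      ((s + p).choose p : ℝ) * 3 ^ p * b0 ((s + p) / 2) *
        ∑ u ∈ Finset.Icc (v - j) (n - j + 2), bc (n - j) u ≤ C * Real.exp (-c * s) * bc n v := by
  obtain ⟨lp, C0, δ0, n00, hlp, hlpc, hC0, hδ0, hrb⟩ := rb h1 h2
  have hlc := lamc_pos.1
  obtain ⟨a, ha⟩ : ∃ a : ℝ, a = -Real.log (lp / lamc) := ⟨_, rfl⟩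
  have hrho : 0 < lp / lamc := div_pos hlp hlc
  have ha0 : 0 < a := by
    rw [ha]
    linarith [Real.log_neg hrho ((div_lt_one hlc).2 hlpc)]
  have hae : lp / lamc = Real.exp (-a) := by rw [ha, neg_neg, Real.exp_log hrho]
  obtain ⟨x, hx⟩ : ∃ x : ℝ, x = min 1 (a / 16) := ⟨_, rfl⟩
  have hx0 : 0 < x := by rw [hx]; exact lt_min one_pos (by linarith)
  have hx1 : x ≤ 1 := by rw [hx]; exact min_le_left _ _
  have hxa : 16 * x ≤ a := by
    have : x ≤ a / 16 := by rw [hx]; exact min_le_right _ _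
    linarith
  obtain ⟨Y, hY⟩ : ∃ Y : ℝ, Y = max 1 (9 / (lamc * lp)) / x ^ 2 := ⟨_, rfl⟩
  have hY1 : 1 ≤ Y := by
    rw [hY, one_le_div (by positivity)]
    exact (pow_le_one₀ hx0.le hx1).trans (le_max_left _ _)
  have hlY : 0 ≤ Real.log Y := Real.log_nonneg hY1
  obtain ⟨δ, hδ⟩ : ∃ δ : ℝ, δ = min (min 1 (a / (4 * (1 + Real.log Y)))) (min (δ0 / 2) (ω1 / 2)) :=
    ⟨_, rfl⟩
  have hδp : 0 < δ := by
    rw [hδ]
    refine lt_min (lt_min one_pos (by positivity)) (lt_min (by linarith) (by linarith))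
  have hδ1 : δ ≤ 1 := by rw [hδ]; exact (min_le_left _ _).trans (min_le_left _ _)
  have hδY : δ * Real.log Y ≤ a / 4 := by
    have h3 : δ ≤ a / (4 * (1 + Real.log Y)) := by
      rw [hδ]; exact (min_le_left _ _).trans (min_le_right _ _)
    calc δ * Real.log Y ≤ a / (4 * (1 + Real.log Y)) * Real.log Y :=
          mul_le_mul_of_nonneg_right h3 hlY
      _ ≤ a / (4 * (1 + Real.log Y)) * (1 + Real.log Y) :=
          mul_le_mul_of_nonneg_left (by linarith) (by positivity)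
      _ = a / 4 := by field_simp
  have hδa : 2 * δ ≤ δ0 := by
    have : δ ≤ δ0 / 2 := by rw [hδ]; exact (min_le_right _ _).trans (min_le_left _ _)
    linarith
  have hδb : 2 * δ ≤ ω1 := by
    have : δ ≤ ω1 / 2 := by rw [hδ]; exact (min_le_right _ _).trans (min_le_right _ _)
    linarith
  refine ⟨δ, a / 4, 4 * lp, max n00 (Nat.ceil (2 * C0) + 1), hδp, hδ1, by linarith, by linarith, ?_⟩
  intro n v s p j hn hv1 hv2 hpar hs hsn hps hj
  have hn0 : n00 ≤ n := (le_max_left _ _).trans hn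
  have hn1 : Nat.ceil (2 * C0) + 1 ≤ n := (le_max_right _ _).trans hn
  have hnR : (1 : ℝ) ≤ n := by
    have : 1 ≤ n := by omega
    exact_mod_cast this
  have hnC : 2 * C0 ≤ n := by
    have h3 : (Nat.ceil (2 * C0) : ℝ) ≤ n := by
      have : Nat.ceil (2 * C0) ≤ n := by omega
      exact_mod_cast this
    exact (Nat.le_ceil _).trans h3
  have hsR : (1 : ℝ) ≤ s := by exact_mod_cast hs
  have hjs : (j : ℝ) ≤ 2 * s := by
    have : j ≤ 2 * s := by omega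
    exact_mod_cast this
  have hjn : (j : ℝ) ≤ δ0 * n := by nlinarith
  have hjv : j ≤ v := by
    have : (j : ℝ) ≤ v := by nlinarith
    exact_mod_cast this
  have hvn : v ≤ n := by
    have : (v : ℝ) ≤ n := by nlinarith
    exact_mod_cast this
  have hbc0 := bc_nonneg n v
  -- the sum
  have hq : C0 / (n : ℝ) ^ 2 ≤ 1 / 2 := by
    rw [div_le_div_iff₀ (by positivity) (by norm_num)]
    nlinarith
  have hsum : ∑ u ∈ Finset.Icc (v - j) (n - j + 2), bc (n - j) u ≤ 2 * lp ^ j * bc n v := by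
    refine (sum_par (fun u => bc_nonneg _ u) (v - j) (n - j + 2) ?_).trans ?_
    · intro u hu
      by_contra hne
      have h3 := (bc_supp hne).2.2
      omega
    · calc ∑ k ∈ Finset.range (n - j + 2 + 1), bc (n - j) (v - j + 2 * k)
          ≤ ∑ k ∈ Finset.range (n - j + 2 + 1), lp ^ j * bc n v * (C0 / (n : ℝ) ^ 2) ^ k := by
            refine Finset.sum_le_sum fun k _ => ?_
            have h3 := hrb n v j k hn0 hv1 hv2 hjn
            linarith
        _ = lp ^ j * bc n v * ∑ k ∈ Finset.range (n - j + 2 + 1), (C0 / (n : ℝ) ^ 2) ^ k := by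
            rw [Finset.mul_sum]
        _ ≤ lp ^ j * bc n v * 2 :=
            mul_le_mul_of_nonneg_left (geo_two (by positivity) hq _) (by positivity)
        _ = 2 * lp ^ j * bc n v := by ring
  obtain ⟨m, hm⟩ : ∃ m : ℕ, m = (s + p) / 2 := ⟨_, rfl⟩
  have hm2 : 2 * m = s + p := by omega
  rw [← hm]
  have hb := b0_le m
  have hkey := key_sq hlp hlc hx0 hae hxa hY hx1 hδ1 hδY hps hj hm2
  have hsum0 : 0 ≤ ∑ u ∈ Finset.Icc (v - j) (n - j + 2), bc (n - j) u :=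
    Finset.sum_nonneg fun u _ => bc_nonneg _ u
  calc ((s + p).choose p : ℝ) * 3 ^ p * b0 m * ∑ u ∈ Finset.Icc (v - j) (n - j + 2), bc (n - j) u
      ≤ ((s + p).choose p : ℝ) * 3 ^ p * (2 * (1 / lamc) ^ m) * (2 * lp ^ j * bc n v) := by
        refine mul_le_mul (mul_le_mul_of_nonneg_left hb (by positivity)) hsum hsum0 (by positivity)
    _ = 4 * (((s + p).choose p : ℝ) * 3 ^ p * (1 / lamc) ^ m * lp ^ j) * bc n v := by ring
    _ ≤ 4 * (lp * Real.exp (-(a / 4) * s)) * bc n v := by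
        refine mul_le_mul_of_nonneg_right ?_ hbc0
        linarith
    _ = 4 * lp * Real.exp (-(a / 4) * s) * bc n v := by ring

end UI39
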