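import Pool.Agent.H39.UI.Pai
import Pool.Agent.H39.UI.Exp

/-!
Module ISO. Isoperimetry: planar connected regions with `s` faces and at most `δ s` legs are exponentially rare.

Proof. A region `F` with `3 s` darts, `s ≤ δ n`, has at least one leg (otherwise it is closed under `f` and `α`, so it is everything by
`PT.con`, `3 s = 6 n`, impossible for `δ ≤ 1`). Its number of legs `p` has `3 s - p` even (`α` is a fixed point free involution of
`F \ legs`), so `s + p` is even and `p ≤ δ s ≤ s`: `2 j + p = s + 2` has a solution. If `bc n v = 0` then `TS` is empty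
(`ts_card`). So (number of pairs `(α, x)`, `x ∈ F` for some `F ∈ PR`) `≤ 3 s Σ_{p ≤ δ s} #PR f v s p ≤ 3 s (s+1) 6 n #TS C e^(-c s)`, by
`pai`, `exps` (divide by `bc n v > 0`).
-/

set_option autoImplicit false

namespace UI39

open Equiv HG39 QD39 UN39

private theorem iso_par {D : Type} [Fintype D] [DecidableEq D] {α : Perm D}
    (h : ∀ d, α (α d) = d) (h2 : ∀ d, α d ≠ d) (F : Finset D) :
    ∃ j, F.card = 2 * j + (legs α F).card := by
  have h3 : (F.filter fun d => α d ∈ F).card + (F.filter fun d => ¬ α d ∈ F).card = F.card :=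
    Finset.card_filter_add_card_filter_not _
  have h4 : ∑ _d ∈ F.filter (fun d => α d ∈ F), (1 : ZMod 2) = 0 := by
    refine Finset.sum_involution (fun d _ => α d) ?_ ?_ ?_ ?_
    · intro a _
      decide
    · intro a _ _
      exact h2 a
    · intro a ha
      rw [Finset.mem_filter] at ha ⊢
      refine ⟨ha.2, ?_⟩
      rw [h]
      exact ha.1
    · intro a _
      exact h a
  rw [Finset.sum_const, nsmul_eq_mul, mul_one, ZMod.natCast_eq_zero_iff] at h4
  obtain ⟨j, hj⟩ := h4
  refine ⟨j, ?_⟩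
  have h5 : legs α F = F.filter fun d => ¬ α d ∈ F := rfl
  rw [h5]
  omega

private theorem iso_pos {D : Type} [Fintype D] [DecidableEq D] {f α : Perm D}
    (h : PT f α []) {F : Finset D} (hF : F.Nonempty) (hc : ∀ d ∈ F, f d ∈ F)
    (hl : (legs α F).card = 0) : F.card = Fintype.card D := by
  rw [Finset.card_eq_zero] at hl
  have h1 : ∀ d ∈ F, α d ∈ F := by
    intro d hd
    by_contra hn
    have h2 : d ∈ legs α F := by
      unfold legs
      rw [Finset.mem_filter]
      exact ⟨hd, hn⟩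
    rw [hl] at h2
    exact absurd h2 (Finset.notMem_empty d)
  have hne : ∀ d, α d ≠ d := by
    intro d hd
    rw [h.leg] at hd
    simp [tri] at hd
  obtain ⟨x, hx⟩ := hF
  have h3 := h.con (fun d => d ∈ F) ⟨x, hne x, hx⟩ hc h1
  have h4 : F = Finset.univ := by
    rw [Finset.eq_univ_iff_forall]
    intro d
    exact h3 d (hne d)
  rw [h4, Finset.card_univ]

theorem iso {ω1 ω2 : ℝ} (h1 : 0 < ω1) (h2 : ω2 < 1) : ∃ δ c C : ℝ, ∃ n0 : ℕ, 0 < δ ∧ 0 < c ∧ 0 < C ∧
    ∀ n v s : ℕ, n0 ≤ n → ω1 * n ≤ v → (v : ℝ) ≤ ω2 * n → v % 2 = n % 2 → 1 ≤ s → (s : ℝ) ≤ δ * n →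
      ∀ f : Perm (Fin (6 * n)), TF f →
      (({q : Perm (Fin (6 * n)) × Fin (6 * n) | q.1 ∈ TS f v ∧ ∃ F : Finset (Fin (6 * n)), q.2 ∈ F ∧
        (∀ d ∈ F, f d ∈ F) ∧ F.card = 3 * s ∧ Cf f q.1 F ∧ Plan f q.1 F ∧
        ((legs q.1 F).card : ℝ) ≤ δ * s}.ncard : ℕ) : ℝ) ≤
        C * n * s ^ 2 * Real.exp (-c * s) * (TS f v).ncard := by
  classical
  obtain ⟨δ, c, C, n0, hδ, hδ1, hc, hC, H⟩ := exps h1 h2
  refine ⟨δ, c, 18 * C, max n0 2, hδ, hc, by positivity, ?_⟩
  intro n v s hn hv1 hv2 hpar hs hsn f hf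
  have hn0 : n0 ≤ n := (le_max_left _ _).trans hn
  have hn2 : 2 ≤ n := (le_max_right _ _).trans hn
  have hD : Fintype.card (Fin (6 * n)) = 6 * n := Fintype.card_fin _
  obtain ⟨A, hA⟩ : ∃ A : Set (Perm (Fin (6 * n)) × Fin (6 * n)), A = {q | q.1 ∈ TS f v ∧
      ∃ F : Finset (Fin (6 * n)), q.2 ∈ F ∧
        (∀ d ∈ F, f d ∈ F) ∧ F.card = 3 * s ∧ Cf f q.1 F ∧ Plan f q.1 F ∧
        ((legs q.1 F).card : ℝ) ≤ δ * s} := ⟨_, rfl⟩
  rw [← hA]
  have hts := ts_card hf hD (by omega) v
  have hbc := bc_nonneg n v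
  have hnR : (0 : ℝ) < 6 * n := by
    have : (0 : ℝ) < n := by exact_mod_cast (by omega : 0 < n)
    positivity
  rcases hbc.lt_or_eq with hpos | hzero
  swap
  · -- no triangulations
    rw [← hzero, mul_zero] at hts
    have h3 : ((TS f v).ncard : ℝ) = 0 := by
      rcases mul_eq_zero.1 hts with h | h
      · exact h
      · exact absurd h hnR.ne'
    have h4 : (TS f v).ncard = 0 := by exact_mod_cast h3
    rw [Set.ncard_eq_zero (Set.toFinite _)] at h4
    have h5 : A = ∅ := by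
      rw [Set.eq_empty_iff_forall_notMem]
      intro q hq
      rw [hA] at hq
      have h6 : q.1 ∈ TS f v := hq.1
      rw [h4] at h6
      exact h6
    rw [h5, Set.ncard_empty, h3, mul_zero, Nat.cast_zero]
  have hsn' : s ≤ n := by
    have h3 : (s : ℝ) ≤ n := hsn.trans (by
      have : (0 : ℝ) ≤ n := by positivity
      nlinarith)
    exact_mod_cast h3
  obtain ⟨I, hI⟩ : ∃ I : Finset ℕ, I = (Finset.Icc 1 s).filter
      (fun p : ℕ => (p : ℝ) ≤ δ * s ∧ ∃ j : ℕ, 2 * j + p = s + 2) := ⟨_, rfl⟩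
  have hsub : A ⊆ ((I.biUnion fun p => (Set.toFinite (PR f v s p)).toFinset.biUnion fun q =>
      q.2.image fun x => (q.1, x) : Finset (Perm (Fin (6 * n)) × Fin (6 * n))) :
      Set (Perm (Fin (6 * n)) × Fin (6 * n))) := by
    rintro ⟨α, x⟩ hq
    rw [hA] at hq
    obtain ⟨ht, F, hx, hcl, hcard, hcf, hpl, hlg⟩ := hq
    change α ∈ TS f v at ht
    change x ∈ F at hx
    change Cf f α F at hcf
    change Plan f α F at hpl
    change ((legs α F).card : ℝ) ≤ δ * s at hlg
    rw [Finset.mem_coe, Finset.mem_biUnion]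
    refine ⟨(legs α F).card, ?_, ?_⟩
    · rw [hI, Finset.mem_filter, Finset.mem_Icc]
      have hpt : PT f α [] := ht.1
      have hne : ∀ d, α d ≠ d := by
        intro d hd
        rw [hpt.leg] at hd
        simp [tri] at hd
      refine ⟨⟨?_, ?_⟩, hlg, ?_⟩
      · by_contra h0
        have h3 : (legs α F).card = 0 := by omega
        have h4 := iso_pos hpt ⟨x, hx⟩ hcl h3
        rw [hcard, hD] at h4
        omega
      · have h3 : ((legs α F).card : ℝ) ≤ s := hlg.trans (by
          have : (0 : ℝ) ≤ s := by positivity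
          nlinarith)
        exact_mod_cast h3
      · obtain ⟨j, hj⟩ := iso_par hpt.inv hne F
        rw [hcard] at hj
        have h3 : (legs α F).card ≤ s := by
          have h3 : ((legs α F).card : ℝ) ≤ s := hlg.trans (by
            have : (0 : ℝ) ≤ s := by positivity
            nlinarith)
          exact_mod_cast h3
        exact ⟨j - s + 1, by omega⟩
    · rw [Finset.mem_biUnion]
      refine ⟨(α, F), ?_, ?_⟩
      · rw [Set.Finite.mem_toFinset]
        exact ⟨ht, hcl, hcard, hcf, hpl, rfl⟩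
      · rw [Finset.mem_image]
        exact ⟨x, hx, rfl⟩
  have hcard : A.ncard ≤ ∑ p ∈ I, (PR f v s p).ncard * (3 * s) := by
    refine (Set.ncard_le_ncard hsub (Finset.finite_toSet _)).trans ?_
    rw [Set.ncard_coe_finset]
    refine Finset.card_biUnion_le.trans ?_
    refine Finset.sum_le_sum fun p _ => ?_
    refine Finset.card_biUnion_le.trans ?_
    rw [Set.ncard_eq_toFinset_card _ (Set.toFinite (PR f v s p))]
    refine Finset.sum_le_card_nsmul _ _ _ fun q hq => ?_
    rw [Set.Finite.mem_toFinset] at hq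
    refine Finset.card_image_le.trans ?_
    exact hq.2.2.1.le
  have hone : ∀ p ∈ I, ((PR f v s p).ncard : ℝ) ≤
      6 * n * ((TS f v).ncard : ℝ) * (C * Real.exp (-c * s)) := by
    intro p hp
    rw [hI, Finset.mem_filter, Finset.mem_Icc] at hp
    obtain ⟨⟨hp1, hp2⟩, hp3, j, hj⟩ := hp
    have h3 := pai (f := f) hf (v := v) hD hs hp1 hj (by omega)
    have h4 := H n v s p j hn0 hv1 hv2 hpar hs hsn hp3 hj
    have h5 : 0 ≤ 6 * (n : ℝ) * ((TS f v).ncard : ℝ) := by positivity
    have h6 := mul_le_mul_of_nonneg_left h4 h5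
    have h7 : ((PR f v s p).ncard : ℝ) * bc n v ≤
        (6 * n * ((TS f v).ncard : ℝ) * (C * Real.exp (-c * s))) * bc n v := by
      refine h3.trans (le_trans (le_of_eq ?_) (h6.trans (le_of_eq ?_)))
      · ring
      · ring
    exact le_of_mul_le_mul_right h7 hpos
  have hIc : I.card ≤ s := by
    rw [hI]
    refine (Finset.card_filter_le _ _).trans ?_
    rw [Nat.card_Icc]
    omega
  have hB : 0 ≤ 6 * (n : ℝ) * ((TS f v).ncard : ℝ) * (C * Real.exp (-c * s)) * (3 * s) := by
    positivity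
  calc (A.ncard : ℝ) ≤ ((∑ p ∈ I, (PR f v s p).ncard * (3 * s) : ℕ) : ℝ) := by
        exact_mod_cast hcard
    _ = ∑ p ∈ I, ((PR f v s p).ncard : ℝ) * (3 * s) := by push_cast; rfl
    _ ≤ ∑ p ∈ I, 6 * n * ((TS f v).ncard : ℝ) * (C * Real.exp (-c * s)) * (3 * s) := by
        refine Finset.sum_le_sum fun p hp => ?_
        exact mul_le_mul_of_nonneg_right (hone p hp) (by positivity)
    _ = I.card * (6 * n * ((TS f v).ncard : ℝ) * (C * Real.exp (-c * s)) * (3 * s)) := by
        rw [Finset.sum_const, nsmul_eq_mul]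
    _ ≤ s * (6 * n * ((TS f v).ncard : ℝ) * (C * Real.exp (-c * s)) * (3 * s)) := by
        exact mul_le_mul_of_nonneg_right (by exact_mod_cast hIc) hB
    _ = 18 * C * n * s ^ 2 * Real.exp (-c * s) * (TS f v).ncard := by ring

end UI39
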