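import Pool.Agent.H39.UI.Defs

/-!
Module INN. The number of planar gluings with `p` legs on a given set of `s` faces: close every leg by a leaf triangle.

Proof. `E := {d // d ∈ F} ⊕ (Fin p × Fin 3)`, `f' := (f on F) ⊕ (identity × rotation i ↦ i + 1)`; `TF f'`. For `β ∈ In f F p` and a bijection
`ι` from the fixed points of `β` in `F` to `Fin p` define the involution `α' = α'(β, ι)` on `E`: `α' d = β d` for `d ∈ F` not fixed,
`α' d = (ι d, 0)`, `α' (ι d, 0) = d` for a leg `d`, `α' (j, 1) = (j, 2)`, `α' (j, 2) = (j, 1)`.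
(1) `α'` is an involution without fixed points, connected (`Cf f β F`; every leaf triangle is glued to `F`).
(2) `cyc (f' * α') = vb f β F + p`: `f' α'` maps a non-leg `d ∈ F` to `f (β d)`, a leg `d` to `(ι d, 1)`, `(ι d, 1)` to `f' (ι d, 2) =
(ι d, 0)`, `(ι d, 0)` to `f d`, and `(j, 2)` to `f' (j, 1) = (j, 2)`. So the `p` darts `(j,2)` are fixed points and the other cycles
correspond to the cycles of `stp f β F` on `F` (`stp f β F d = f (β d)` for `d ∈ F`; two more darts after each leg).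
(3) Numbers: `6 vb = 3 (3 s - p) + 12 - 6 s`, so `2 vb = s - p + 4` and `cyc (f' α') = (s + p)/2 + 2`; `s + p` is even. With
`2 m = s + p`: `card E = 3 s + 3 p = 6 m`, so `α' ∈ TS f' (m + 2)`.
(4) `(β, ι) ↦ α'` is injective: `β d = α' d` if `α' d ∈ F`, `= d` otherwise; `ι d` = first component of `α' d`. For every `β` there are
`p!` bijections `ι`. So `#In * p! ≤ #TS f' (m+2)`, and `ts_card` (UN/LawA): `#TS f' (m+2) * (6 m) = (2m)! 3^(2m) bc m (m+2)`,
`bc m (m+2) = b0 m`, `6 m ≥ 1` (`s ≥ 1`). If `In` is empty, trivial.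
-/

set_option autoImplicit false

namespace UI39

open Equiv HG39 QD39 UN39

variable {D : Type} [Fintype D] [DecidableEq D]

/-- the darts of `F` and of the leaf triangles -/
abbrev EE (F : Finset D) (p : ℕ) : Type := {d // d ∈ F} ⊕ (Fin p × Fin 3)

/-- the legs -/
abbrev Fx (β : Perm D) (F : Finset D) : Type := {d : {d // d ∈ F} // β (d : D) = d}

omit [Fintype D] [DecidableEq D] in
theorem inn_mem {f : Perm D} (hf : TF f) {F : Finset D} (hF : ∀ d ∈ F, f d ∈ F) (d : D) :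
    f d ∈ F ↔ d ∈ F := by
  refine ⟨fun h => ?_, hF d⟩
  have h1 := hF _ (hF _ h)
  rwa [hf.three] at h1

/-- the faces -/
def innf (f : Perm D) (F : Finset D) (h : ∀ d, f d ∈ F ↔ d ∈ F) (p : ℕ) : Perm (EE F p) :=
  Equiv.sumCongr (f.subtypePerm h)
    (Equiv.prodCongr (Equiv.refl (Fin p)) (Equiv.addRight (1 : Fin 3)))

/-- the gluing with leaf triangles -/
def inna (β : Perm D) (F : Finset D) (p : ℕ) (hβ : ∀ d ∈ F, β d ∈ F) (ι : Fx β F ≃ Fin p) :
    EE F p → EE F p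
  | Sum.inl d => if h : β (d : D) = d then Sum.inr (ι ⟨d, h⟩, 0) else Sum.inl ⟨β d, hβ d d.2⟩
  | Sum.inr (j, i) =>
    if i = 0 then Sum.inl (ι.symm j).1 else Sum.inr (j, if i = 1 then 2 else 1)

section steps

variable {f β : Perm D} {F : Finset D} {p : ℕ} (h : ∀ d, f d ∈ F ↔ d ∈ F)
  (hβ : ∀ d ∈ F, β d ∈ F) (ι : Fx β F ≃ Fin p)

omit [Fintype D] in
theorem inna_eq {d : {d // d ∈ F}} (hd : β (d : D) = d) :
    inna β F p hβ ι (Sum.inl d) = Sum.inr (ι ⟨d, hd⟩, 0) := by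
  show (if h : β (d : D) = d then (Sum.inr (ι ⟨d, h⟩, 0) : EE F p)
    else Sum.inl ⟨β d, hβ d d.2⟩) = _
  rw [dif_pos hd]

omit [Fintype D] in
theorem inna_ne {d : {d // d ∈ F}} (hd : β (d : D) ≠ d) :
    inna β F p hβ ι (Sum.inl d) = Sum.inl ⟨β d, hβ d d.2⟩ := by
  show (if h : β (d : D) = d then (Sum.inr (ι ⟨d, h⟩, 0) : EE F p)
    else Sum.inl ⟨β d, hβ d d.2⟩) = _
  rw [dif_neg hd]

omit [Fintype D] in
theorem inna_0 (j : Fin p) : inna β F p hβ ι (Sum.inr (j, 0)) = Sum.inl (ι.symm j).1 := by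
  show (if (0 : Fin 3) = 0 then (Sum.inl (ι.symm j).1 : EE F p)
    else Sum.inr (j, if (0 : Fin 3) = 1 then 2 else 1)) = _
  rw [if_pos rfl]

omit [Fintype D] in
theorem inna_1 (j : Fin p) : inna β F p hβ ι (Sum.inr (j, 1)) = Sum.inr (j, 2) := by
  show (if (1 : Fin 3) = 0 then (Sum.inl (ι.symm j).1 : EE F p)
    else Sum.inr (j, if (1 : Fin 3) = 1 then 2 else 1)) = _
  rw [if_neg (by decide), if_pos rfl]

omit [Fintype D] in
theorem inna_2 (j : Fin p) : inna β F p hβ ι (Sum.inr (j, 2)) = Sum.inr (j, 1) := by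
  show (if (2 : Fin 3) = 0 then (Sum.inl (ι.symm j).1 : EE F p)
    else Sum.inr (j, if (2 : Fin 3) = 1 then 2 else 1)) = _
  rw [if_neg (by decide), if_neg (by decide)]

omit [Fintype D] in
theorem inna_inv (hinv : ∀ d, β (β d) = d) : Function.Involutive (inna β F p hβ ι) := by
  rintro (d | ⟨j, i⟩)
  · by_cases hd : β (d : D) = d
    · rw [inna_eq hβ ι hd, inna_0, ι.symm_apply_apply]
    · rw [inna_ne hβ ι hd]
      have h1 : β ((⟨β d, hβ d d.2⟩ : {d // d ∈ F}) : D) ≠ (⟨β d, hβ d d.2⟩ : {d // d ∈ F}) := by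
        intro h2
        have h3 : β (β (d : D)) = β d := h2
        rw [hinv] at h3
        exact hd h3.symm
      rw [inna_ne hβ ι h1]
      congr 1
      exact Subtype.ext (hinv _)
  · fin_cases i
    · show inna β F p hβ ι (inna β F p hβ ι (Sum.inr (j, 0))) = Sum.inr (j, 0)
      rw [inna_0, inna_eq hβ ι (ι.symm j).2]
      congr 2
      exact ι.apply_symm_apply j
    · show inna β F p hβ ι (inna β F p hβ ι (Sum.inr (j, 1))) = Sum.inr (j, 1)
      rw [inna_1, inna_2]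
    · show inna β F p hβ ι (inna β F p hβ ι (Sum.inr (j, 2))) = Sum.inr (j, 2)
      rw [inna_2, inna_1]

/-- the gluing as a permutation -/
def innp (hinv : ∀ d, β (β d) = d) : Perm (EE F p) := (inna_inv hβ ι hinv).toPerm

variable (hinv : ∀ d, β (β d) = d)

omit [Fintype D] in
theorem sg_eq {d : {d // d ∈ F}} (hd : β (d : D) = d) :
    (innf f F h p * innp hβ ι hinv) (Sum.inl d) = Sum.inr (ι ⟨d, hd⟩, 1) := by
  show innf f F h p (inna β F p hβ ι (Sum.inl d)) = _
  rw [inna_eq hβ ι hd]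
  rfl

omit [Fintype D] in
theorem sg_ne {d : {d // d ∈ F}} (hd : β (d : D) ≠ d) :
    (innf f F h p * innp hβ ι hinv) (Sum.inl d) =
      Sum.inl ⟨f (β d), (h _).2 (hβ d d.2)⟩ := by
  show innf f F h p (inna β F p hβ ι (Sum.inl d)) = _
  rw [inna_ne hβ ι hd]
  rfl

omit [Fintype D] in
theorem sg_0 (j : Fin p) :
    (innf f F h p * innp hβ ι hinv) (Sum.inr (j, 0)) =
      Sum.inl ⟨f ((ι.symm j).1 : D), (h _).2 (ι.symm j).1.2⟩ := by
  show innf f F h p (inna β F p hβ ι (Sum.inr (j, 0))) = _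
  rw [inna_0]
  rfl

omit [Fintype D] in
theorem sg_1 (j : Fin p) :
    (innf f F h p * innp hβ ι hinv) (Sum.inr (j, 1)) = Sum.inr (j, 0) := by
  show innf f F h p (inna β F p hβ ι (Sum.inr (j, 1))) = _
  rw [inna_1]
  rfl

omit [Fintype D] in
theorem sg_2 (j : Fin p) :
    (innf f F h p * innp hβ ι hinv) (Sum.inr (j, 2)) = Sum.inr (j, 2) := by
  show innf f F h p (inna β F p hβ ι (Sum.inr (j, 2))) = _
  rw [inna_2]
  rfl

/-- the relation of the cycles of `stp` -/
def rr (f β : Perm D) (F : Finset D) (a b : {d // d ∈ F}) : Prop := (b : D) = stp f β F a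

omit [Fintype D] in
include hβ in
theorem stp_F {a : D} (ha : a ∈ F) : stp f β F a = f (β a) := by
  unfold stp
  rw [if_pos ⟨ha, hβ a ha⟩]

/-- the cycle of a dart -/
def gg (f : Perm D) {β : Perm D} {F : Finset D} {p : ℕ} (ι : Fx β F ≃ Fin p) :
    EE F p → Quot (rr f β F) ⊕ Fin p
  | Sum.inl d => Sum.inl (Quot.mk _ d)
  | Sum.inr (j, i) => if i = 2 then Sum.inr j else Sum.inl (Quot.mk _ (ι.symm j).1)

omit [Fintype D] in
theorem gg_step (e : EE F p) : gg f ι ((innf f F h p * innp hβ ι hinv) e) = gg f ι e := by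
  rcases e with d | ⟨j, i⟩
  · by_cases hd : β (d : D) = d
    · rw [sg_eq h hβ ι hinv hd]
      show (if (1 : Fin 3) = 2 then Sum.inr (ι ⟨d, hd⟩)
        else (Sum.inl (Quot.mk _ (ι.symm (ι ⟨d, hd⟩)).1) : Quot (rr f β F) ⊕ Fin p)) =
        Sum.inl (Quot.mk _ d)
      rw [if_neg (by decide), ι.symm_apply_apply]
    · rw [sg_ne h hβ ι hinv hd]
      show Sum.inl (Quot.mk _ _) = Sum.inl (Quot.mk _ d)
      congr 1
      refine (Quot.sound ?_).symm
      show f (β d) = stp f β F d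
      rw [stp_F hβ d.2]
  · fin_cases i
    · show gg f ι ((innf f F h p * innp hβ ι hinv) (Sum.inr (j, 0))) = gg f ι (Sum.inr (j, 0))
      rw [sg_0 h hβ ι hinv]
      show Sum.inl (Quot.mk _ _) =
        (if (0 : Fin 3) = 2 then Sum.inr j
          else (Sum.inl (Quot.mk _ (ι.symm j).1) : Quot (rr f β F) ⊕ Fin p))
      rw [if_neg (by decide)]
      congr 1
      refine (Quot.sound ?_).symm
      show f ((ι.symm j).1 : D) = stp f β F (ι.symm j).1
      rw [stp_F hβ (ι.symm j).1.2, (ι.symm j).2]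
    · show gg f ι ((innf f F h p * innp hβ ι hinv) (Sum.inr (j, 1))) = gg f ι (Sum.inr (j, 1))
      rw [sg_1 h hβ ι hinv]
      show (if (0 : Fin 3) = 2 then Sum.inr j
          else (Sum.inl (Quot.mk _ (ι.symm j).1) : Quot (rr f β F) ⊕ Fin p)) =
        (if (1 : Fin 3) = 2 then Sum.inr j
          else (Sum.inl (Quot.mk _ (ι.symm j).1) : Quot (rr f β F) ⊕ Fin p))
      rw [if_neg (by decide), if_neg (by decide)]
    · show gg f ι ((innf f F h p * innp hβ ι hinv) (Sum.inr (j, 2))) = gg f ι (Sum.inr (j, 2))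
      rw [sg_2 h hβ ι hinv]

omit [Fintype D] [DecidableEq D] in
theorem zpow_inv {E X : Type} {σ : Perm E} {g : E → X} (hg : ∀ e, g (σ e) = g e) (i : ℤ) (e : E) :
    g ((σ ^ i) e) = g e := by
  induction i using Int.induction_on with
  | zero => rfl
  | succ i ih =>
    rw [add_comm, zpow_add, zpow_one, Perm.mul_apply, hg, ih]
  | pred i ih =>
    have h1 := hg ((σ ^ (-(i : ℤ) - 1)) e)
    rw [← Perm.mul_apply, ← zpow_one_add] at h1
    have h2 : 1 + (-(i : ℤ) - 1) = -(i : ℤ) := by ring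
    rw [h2, ih] at h1
    exact h1.symm

omit [Fintype D] in
theorem sg_same (d : {d // d ∈ F}) (hd : β (d : D) = d) :
    (innf f F h p * innp hβ ι hinv).SameCycle (Sum.inl d) (Sum.inr (ι ⟨d, hd⟩, 1)) := by
  rw [← sg_eq h hβ ι hinv hd]
  exact Perm.sameCycle_apply_right.2 (Perm.SameCycle.refl _ _)

omit [Fintype D] in
theorem sg_same0 (d : {d // d ∈ F}) (hd : β (d : D) = d) :
    (innf f F h p * innp hβ ι hinv).SameCycle (Sum.inl d) (Sum.inr (ι ⟨d, hd⟩, 0)) := by
  have h1 := sg_same h hβ ι hinv d hd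
  rw [← sg_1 h hβ ι hinv]
  exact Perm.sameCycle_apply_right.2 h1

omit [Fintype D] in
theorem sg_rr (a b : {d // d ∈ F}) (hab : rr f β F a b) :
    (innf f F h p * innp hβ ι hinv).SameCycle (Sum.inl a) (Sum.inl b) := by
  have hb : (b : D) = f (β a) := by
    have h1 : (b : D) = stp f β F a := hab
    rw [h1, stp_F hβ a.2]
  by_cases ha : β (a : D) = a
  · have h1 := sg_same0 h hβ ι hinv a ha
    have h2 : (innf f F h p * innp hβ ι hinv) (Sum.inr (ι ⟨a, ha⟩, 0)) = Sum.inl b := by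
      rw [sg_0 h hβ ι hinv]
      congr 1
      refine Subtype.ext ?_
      show f ((ι.symm (ι ⟨a, ha⟩)).1 : D) = b
      rw [ι.symm_apply_apply, hb]
      show f (a : D) = f (β a)
      rw [ha]
    rw [← h2]
    exact Perm.sameCycle_apply_right.2 h1
  · have h2 : (innf f F h p * innp hβ ι hinv) (Sum.inl a) = Sum.inl b := by
      rw [sg_ne h hβ ι hinv ha]
      congr 1
      exact Subtype.ext hb.symm
    rw [← h2]
    exact Perm.sameCycle_apply_right.2 (Perm.SameCycle.refl _ _)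

/-- cycles of the closed surface -/
noncomputable def ggE : Quotient (Perm.SameCycle.setoid (innf f F h p * innp hβ ι hinv)) ≃
    Quot (rr f β F) ⊕ Fin p where
  toFun := Quotient.lift (gg f ι) (by
    rintro a b ⟨i, hi⟩
    rw [← hi, zpow_inv (gg_step h hβ ι hinv)])
  invFun := Sum.elim
    (Quot.lift (fun d => Quotient.mk _ (Sum.inl d)) fun a b hab =>
      Quotient.sound (sg_rr h hβ ι hinv a b hab))
    (fun j => Quotient.mk _ (Sum.inr (j, 2)))
  left_inv := by
    intro q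
    induction q using Quotient.inductionOn with
    | h e =>
      rcases e with d | ⟨j, i⟩
      · rfl
      · fin_cases i
        · show Quotient.mk _ (Sum.inl (ι.symm j).1) = Quotient.mk _ (Sum.inr (j, 0))
          refine Quotient.sound ?_
          have h1 := sg_same0 h hβ ι hinv (ι.symm j).1 (ι.symm j).2
          have h2 : ι ⟨(ι.symm j).1, (ι.symm j).2⟩ = j := ι.apply_symm_apply j
          rw [h2] at h1
          exact h1
        · show Quotient.mk _ (Sum.inl (ι.symm j).1) = Quotient.mk _ (Sum.inr (j, 1))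
          refine Quotient.sound ?_
          have h1 := sg_same h hβ ι hinv (ι.symm j).1 (ι.symm j).2
          have h2 : ι ⟨(ι.symm j).1, (ι.symm j).2⟩ = j := ι.apply_symm_apply j
          rw [h2] at h1
          exact h1
        · rfl
  right_inv := by
    rintro (q | j)
    · induction q using Quot.ind with
      | mk d => rfl
    · rfl

theorem inn_cyc : cyc (innf f F h p * innp hβ ι hinv) = vb f β F + p := by
  unfold cyc
  rw [Nat.card_congr (ggE h hβ ι hinv), Nat.card_sum, Nat.card_fin]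
  rfl

end steps

omit [Fintype D] [DecidableEq D] in
theorem innf_TF {f : Perm D} (hf : TF f) {F : Finset D} (h : ∀ d, f d ∈ F ↔ d ∈ F) (p : ℕ) :
    TF (innf f F h p) := by
  constructor
  · rintro (d | ⟨j, i⟩)
    · show Sum.inl _ = Sum.inl d
      congr 1
      exact Subtype.ext (hf.three d)
    · show Sum.inr (j, i + 1 + 1 + 1) = Sum.inr (j, i)
      congr 2
      fin_cases i <;> rfl
  · rintro (d | ⟨j, i⟩) he
    · have h1 : (⟨f d, (h _).2 d.2⟩ : {d // d ∈ F}) = d := Sum.inl.inj he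
      exact hf.nf d (congrArg Subtype.val h1)
    · have h1 : ((j, i + 1) : Fin p × Fin 3) = (j, i) := Sum.inr.inj he
      have h2 : i + 1 = i := congrArg Prod.snd h1
      fin_cases i <;> simp at h2

omit [Fintype D] in
theorem inn_PT {f β : Perm D} {F : Finset D} {p : ℕ} (h : ∀ d, f d ∈ F ↔ d ∈ F)
    (hβ : ∀ d ∈ F, β d ∈ F) (ι : Fx β F ≃ Fin p) (hinv : ∀ d, β (β d) = d) (hC : Cf f β F) :
    PT (innf f F h p) (innp hβ ι hinv) [] := by
  have hfix : ∀ e, innp hβ ι hinv e ≠ e := by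
    rintro (d | ⟨j, i⟩) he
    · have he' : inna β F p hβ ι (Sum.inl d) = Sum.inl d := he
      by_cases hd : β (d : D) = d
      · rw [inna_eq hβ ι hd] at he'
        exact absurd he' Sum.inr_ne_inl
      · rw [inna_ne hβ ι hd] at he'
        exact hd (congrArg Subtype.val (Sum.inl.inj he'))
    · have he' : inna β F p hβ ι (Sum.inr (j, i)) = Sum.inr (j, i) := he
      fin_cases i
      · have h1 : inna β F p hβ ι (Sum.inr (j, 0)) = Sum.inr (j, 0) := he'
        rw [inna_0] at h1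
        exact absurd h1 Sum.inl_ne_inr
      · have h1 : inna β F p hβ ι (Sum.inr (j, 1)) = Sum.inr (j, 1) := he'
        rw [inna_1] at h1
        have h2 : (2 : Fin 3) = 1 := congrArg Prod.snd (Sum.inr.inj h1)
        exact absurd h2 (by decide)
      · have h1 : inna β F p hβ ι (Sum.inr (j, 2)) = Sum.inr (j, 2) := he'
        rw [inna_2] at h1
        have h2 : (1 : Fin 3) = 2 := congrArg Prod.snd (Sum.inr.inj h1)
        exact absurd h2 (by decide)
  constructor
  · exact inna_inv hβ ι hinv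
  · intro e
    constructor
    · intro he
      exact absurd he (hfix e)
    · intro he
      simp [tri] at he
  · simp [tri]
  · intro S h1 h2 h3 e _
    -- a dart of `F`
    have hrot : ∀ j : Fin p, ∀ i : Fin 3, S (Sum.inr (j, i)) → ∀ i' : Fin 3, S (Sum.inr (j, i')) := by
      intro j i hi i'
      have g1 : S (Sum.inr (j, i + 1)) := h2 _ hi
      have g2 : S (Sum.inr (j, i + 1 + 1)) := h2 _ g1
      fin_cases i <;> fin_cases i' <;> first | exact hi | exact g1 | exact g2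
    have hF0 : ∃ d ∈ F, ∃ hd : d ∈ F, S (Sum.inl ⟨d, hd⟩) := by
      obtain ⟨e0, -, he0⟩ := h1
      rcases e0 with d | ⟨j, i⟩
      · exact ⟨d, d.2, d.2, he0⟩
      · have g1 := hrot j i he0 0
        have g2 : S (inna β F p hβ ι (Sum.inr (j, 0))) := h3 _ g1
        rw [inna_0] at g2
        exact ⟨(ι.symm j).1, (ι.symm j).1.2, (ι.symm j).1.2, g2⟩
    have hall := hC (fun d => ∃ hd : d ∈ F, S (Sum.inl ⟨d, hd⟩)) ?_ ?_ hF0
    · rcases e with d | ⟨j, i⟩
      · exact (hall d d.2).2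
      · have g1 := (hall (ι.symm j).1 (ι.symm j).1.2).2
        have g2 : S (inna β F p hβ ι (Sum.inl (ι.symm j).1)) := h3 _ g1
        rw [inna_eq hβ ι (ι.symm j).2] at g2
        have g3 : ι ⟨(ι.symm j).1, (ι.symm j).2⟩ = j := ι.apply_symm_apply j
        rw [g3] at g2
        exact hrot j 0 g2 i
    · rintro d hd ⟨hd', hS⟩
      exact ⟨(h d).2 hd, h2 _ hS⟩
    · rintro d hd hβd ⟨hd', hS⟩
      refine ⟨hβd, ?_⟩
      by_cases hfd : β d = d
      · have g1 : (⟨β d, hβd⟩ : {d // d ∈ F}) = ⟨d, hd'⟩ := Subtype.ext hfd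
        rw [g1]
        exact hS
      · have g2 : S (inna β F p hβ ι (Sum.inl ⟨d, hd'⟩)) := h3 _ hS
        rw [inna_ne hβ ι (d := ⟨d, hd'⟩) hfd] at g2
        exact g2

omit [Fintype D] in
theorem innp_inj {F : Finset D} {p : ℕ} {β1 β2 : Perm D} (o1 : ∀ d, d ∉ F → β1 d = d)
    (o2 : ∀ d, d ∉ F → β2 d = d) (hβ1 : ∀ d ∈ F, β1 d ∈ F) (hβ2 : ∀ d ∈ F, β2 d ∈ F)
    (ι1 : Fx β1 F ≃ Fin p) (ι2 : Fx β2 F ≃ Fin p)
    (he : inna β1 F p hβ1 ι1 = inna β2 F p hβ2 ι2) : β1 = β2 := by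
  ext d
  by_cases hd : d ∈ F
  · have h1 := congrFun he (Sum.inl ⟨d, hd⟩)
    by_cases c1 : β1 d = d
    · rw [inna_eq hβ1 ι1 (d := ⟨d, hd⟩) c1] at h1
      by_cases c2 : β2 d = d
      · rw [c1, c2]
      · rw [inna_ne hβ2 ι2 (d := ⟨d, hd⟩) c2] at h1
        exact absurd h1 Sum.inr_ne_inl
    · rw [inna_ne hβ1 ι1 (d := ⟨d, hd⟩) c1] at h1
      by_cases c2 : β2 d = d
      · rw [inna_eq hβ2 ι2 (d := ⟨d, hd⟩) c2] at h1
        exact absurd h1 Sum.inl_ne_inr
      · rw [inna_ne hβ2 ι2 (d := ⟨d, hd⟩) c2] at h1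
        exact congrArg Subtype.val (Sum.inl.inj h1)
  · rw [o1 d hd, o2 d hd]

omit [Fintype D] in
theorem iota_inj {F : Finset D} {p : ℕ} {β : Perm D} (hβ : ∀ d ∈ F, β d ∈ F)
    (ι1 ι2 : Fx β F ≃ Fin p) (he : inna β F p hβ ι1 = inna β F p hβ ι2) : ι1 = ι2 := by
  ext ⟨d, hd⟩
  have h1 := congrFun he (Sum.inl d)
  rw [inna_eq hβ ι1 hd, inna_eq hβ ι2 hd] at h1
  have h2 := congrArg Prod.fst (Sum.inr.inj h1)
  exact congrArg Fin.val h2

theorem inn_card {f : Perm D} (hf : TF f) {s p : ℕ} (F : Finset D) (hF : ∀ d ∈ F, f d ∈ F)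
    (hs : F.card = 3 * s) (h1 : 1 ≤ s) :
    ((In f F p).ncard : ℝ) * (p.factorial : ℝ) ≤
      ((s + p).factorial : ℝ) * 3 ^ (s + p) * b0 ((s + p) / 2) := by
  classical
  have hFi := inn_mem hf hF
  rcases Set.eq_empty_or_nonempty (In f F p) with hemp | ⟨β0, hβ0⟩
  · rw [hemp, Set.ncard_empty, Nat.cast_zero, zero_mul]
    have := (b0_pos ((s + p) / 2)).le
    positivity
  obtain ⟨m, hm⟩ : ∃ m, s + p = 2 * m := by
    obtain ⟨-, -, -, -, -, h6⟩ := hβ0
    rw [hs] at h6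
    exact ⟨(s + p) / 2, by omega⟩
  have hm1 : 1 ≤ m := by omega
  have hcard : Fintype.card (EE F p) = 6 * m := by
    rw [Fintype.card_sum, Fintype.card_prod, Fintype.card_fin, Fintype.card_fin,
      Fintype.card_coe, hs]
    omega
  -- the map
  have hTS : ∀ β ∈ In f F p, ∀ (hβ : ∀ d ∈ F, β d ∈ F) (ι : Fx β F ≃ Fin p)
      (hinv : ∀ d, β (β d) = d), innp hβ ι hinv ∈ TS (innf f F hFi p) (m + 2) := by
    rintro β ⟨-, -, -, -, hC, h6⟩ hβ ι hinv
    refine ⟨inn_PT hFi hβ ι hinv hC, ?_⟩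
    rw [inn_cyc hFi hβ ι hinv]
    rw [hs] at h6
    omega
  have hcardI : ∀ β : In f F p, Nat.card (Fx β.1 F ≃ Fin p) = p.factorial := by
    rintro ⟨β, hinv, -, -, hp, -⟩
    have h2 : Fintype.card (Fx β F) = p := by
      rw [← hp, ← Fintype.card_coe]
      refine Fintype.card_congr ⟨fun d => ⟨d.1.1, Finset.mem_filter.2 ⟨d.1.2, d.2⟩⟩,
        fun d => ⟨⟨d.1, (Finset.mem_filter.1 d.2).1⟩, (Finset.mem_filter.1 d.2).2⟩,
        fun d => rfl, fun d => rfl⟩
    have e : Fx β F ≃ Fin p := Fintype.equivFinOfCardEq h2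
    show Nat.card (Fx β F ≃ Fin p) = _
    rw [Nat.card_eq_fintype_card, Fintype.card_equiv e, h2]
  have hsig : Nat.card (Σ β : In f F p, (Fx β.1 F ≃ Fin p)) = (In f F p).ncard * p.factorial := by
    rw [Nat.card_sigma]
    simp only [hcardI]
    rw [Finset.sum_const, smul_eq_mul, Finset.card_univ, ← Nat.card_eq_fintype_card]
    rfl
  have hle : (In f F p).ncard * p.factorial ≤ (TS (innf f F hFi p) (m + 2)).ncard := by
    rw [← hsig]
    show _ ≤ Nat.card (TS (innf f F hFi p) (m + 2))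
    refine Nat.card_le_card_of_injective
      (fun q : (Σ β : In f F p, (Fx β.1 F ≃ Fin p)) =>
        (⟨innp q.1.2.2.2.1 q.2 q.1.2.1, hTS q.1.1 q.1.2 q.1.2.2.2.1 q.2 q.1.2.1⟩ :
          TS (innf f F hFi p) (m + 2))) ?_
    rintro ⟨⟨β1, hb1⟩, ι1⟩ ⟨⟨β2, hb2⟩, ι2⟩ heq
    have h2 : innp hb1.2.2.1 ι1 hb1.1 = innp hb2.2.2.1 ι2 hb2.1 := congrArg Subtype.val heq
    have h3 : inna β1 F p hb1.2.2.1 ι1 = inna β2 F p hb2.2.2.1 ι2 :=
      congrArg (fun σ : Perm (EE F p) => (σ : EE F p → EE F p)) h2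
    have h4 : β1 = β2 := innp_inj hb1.2.1 hb2.2.1 hb1.2.2.1 hb2.2.2.1 ι1 ι2 h3
    subst h4
    have h5 : ι1 = ι2 := iota_inj hb1.2.2.1 ι1 ι2 h3
    rw [h5]
  have hts := ts_card (innf_TF hf hFi p) hcard hm1 (m + 2)
  have hb : bc m (m + 2) = b0 m := rfl
  rw [hb] at hts
  have hdiv : (s + p) / 2 = m := by omega
  rw [hdiv, hm, ← hts]
  have h6 : (1 : ℝ) ≤ 6 * m := by
    have h7 : (1 : ℝ) ≤ m := by exact_mod_cast hm1
    linarith
  have h8 : (((In f F p).ncard : ℝ)) * (p.factorial : ℝ) ≤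
      ((TS (innf f F hFi p) (m + 2)).ncard : ℝ) := by exact_mod_cast hle
  refine h8.trans ?_
  exact le_mul_of_one_le_right (Nat.cast_nonneg _) h6

end UI39
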