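import Pool.Agent.H39.UI.Vtx

/-!
Module OUT. For a fixed set `F` of faces and a fixed gluing `β` inside: the number of completions.

Let `L = {d ∈ F | β d = d}`, `p = #L ≥ 1`, `j = (s - p)/2 + 1` (given as `2 * j = s - p + 2`, i.e. `2 j + p = s + 2`).

Proof. If the set on the left is empty there is nothing to do; otherwise `β` is an involution etc. Choose `l, θ` by `ret` for
`π = f * β`, `X = F \ L` (they depend only on `β`), and the list `rs` of the roots of the triangles outside `F` (`triang`, `lawa_ext`,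
or `Finset` induction), `rs.length = 2 n - s`. For `α` in the set: `inn α F = β`, `legs α F = L` (`d ∈ F`, `α d ∉ F` iff
`β d = d`, since `α` has no fixed points). `vtx` gives: `γ = β * α ∈ VA (l :: ts) u` with `u = vt .. γ` and `v + 1 ≤ u + vb f α F`, and
`Plan` says `6 vb = 3 (3 s - p) + 12 - 6 s`, i.e. `vb = j + 1` (`2 vb = s - p + 4`). So `v - j ≤ u`. `α ↦ γ = β * α` is injective. So
the number is at most `Σ_{u ≥ v - j} #(VA (l :: ts) u)` and `#(VA (l :: ts) u) = (K (p :: replicate (2n-s) 3)).coeff u`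
(`cnt_coeff`, `cnt_eq`) `= (2n-s)! 3^(2n-s) kc [p] (2n-s) u` (`kc_coeff`), `kc [p] (2n-s) u ≤ kc [1] (2n-s+p-1) u` (`kc_le_one`)
`= bc (n - j) u` (`2 n - s + p - 1 = 2 (n - j) + 1`). Finally `bc (n-j) u = 0` for `u > n - j + 2` (`bc_supp`). `j ≤ n` because
`s ≤ 2 n - 2`... : here use the hypothesis `s + 2 ≤ 2 * n`.
-/

set_option autoImplicit false

namespace UI39

open Equiv HG39 QD39 UN39

variable {D : Type} [Fintype D] [DecidableEq D]

theorem out_roots {f : Perm D} (hf : TF f) (N : ℕ) : ∀ F : Finset D, F.card ≤ N → (∀ d ∈ F, f d ∈ F) →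
    ∃ rs : List D, (tri f rs).Nodup ∧ ∀ d, d ∈ tri f rs ↔ d ∈ F := by
  induction N with
  | zero =>
    intro F hF _
    have h0 : F = ∅ := Finset.card_eq_zero.1 (by omega)
    refine ⟨[], by simp [tri], fun d => by simp [tri, h0]⟩
  | succ N ih =>
    intro F hF hcl
    rcases F.eq_empty_or_nonempty with h0 | ⟨b, hb⟩
    · exact ⟨[], by simp [tri], fun d => by simp [tri, h0]⟩
    · have hb1 := hcl b hb
      have hb2 := hcl _ hb1
      have hnd := lawa_nd hf b
      obtain ⟨rs, h1, h2⟩ := ih (F.filter fun d => d ≠ b ∧ d ≠ f b ∧ d ≠ f (f b)) (by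
        have h3 : (F.filter fun d => d ≠ b ∧ d ≠ f b ∧ d ≠ f (f b)).card < F.card := by
          apply Finset.card_lt_card
          rw [Finset.ssubset_iff_of_subset (Finset.filter_subset _ _)]
          exact ⟨b, hb, by simp⟩
        omega) (by
        intro d hd
        rw [Finset.mem_filter] at hd ⊢
        obtain ⟨hd1, hd2, hd3, hd4⟩ := hd
        refine ⟨hcl d hd1, ?_, ?_, ?_⟩
        · intro h
          apply hd4
          rw [← h, hf.three]
        · intro h
          exact hd2 (f.injective h)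
        · intro h
          exact hd3 (f.injective h))
      have e1 : tri f (b :: rs) = [b, f b, f (f b)] ++ tri f rs := by
        unfold tri
        rw [List.flatMap_cons]
      refine ⟨b :: rs, ?_, fun d => ?_⟩
      · rw [e1, List.nodup_append]
        refine ⟨hnd, h1, ?_⟩
        intro x hx z hz hxz
        rw [← hxz, h2, Finset.mem_filter] at hz
        rw [List.mem_cons, List.mem_cons, List.mem_singleton] at hx
        rcases hx with hx | hx | hx
        · exact hz.2.1 hx
        · exact hz.2.2.1 hx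
        · exact hz.2.2.2 hx
      · rw [e1, List.mem_append, h2, Finset.mem_filter, List.mem_cons, List.mem_cons,
          List.mem_singleton]
        constructor
        · rintro ((rfl | rfl | rfl) | ⟨h3, -⟩)
          · exact hb
          · exact hb1
          · exact hb2
          · exact h3
        · intro h3
          by_cases h4 : d = b ∨ d = f b ∨ d = f (f b)
          · exact Or.inl h4
          · push Not at h4
            exact Or.inr ⟨h3, h4⟩

theorem out_inn {f α : Perm D} {v : ℕ} (hα : α ∈ TS f v) (F : Finset D) (d : D) :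
    inn α F d = if d ∈ F ∧ α d ∈ F then α d else d := by
  classical
  have hinv : ∀ d, α (α d) = d := hα.1.inv
  unfold inn
  rw [dif_pos hinv]
  show (if d ∈ F ∧ α d ∈ F then α d else d) = _
  rfl

omit [Fintype D] [DecidableEq D] in
theorem out_ne {f α : Perm D} {v : ℕ} (hα : α ∈ TS f v) (d : D) : α d ≠ d := by
  intro h
  have h2 := (hα.1.leg d).1 h
  simp [tri] at h2

theorem out_legs {f α : Perm D} {v : ℕ} (hα : α ∈ TS f v) (F : Finset D) :
    legs α F = F.filter fun d => inn α F d = d := by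
  ext d
  unfold legs
  rw [Finset.mem_filter, Finset.mem_filter]
  refine and_congr_right fun hd => ?_
  rw [out_inn hα]
  by_cases h : α d ∈ F
  · rw [if_pos ⟨hd, h⟩]
    exact ⟨fun h1 => absurd h h1, fun h1 => absurd h1 (out_ne hα d)⟩
  · rw [if_neg (fun h1 => h h1.2)]
    exact ⟨fun _ => rfl, fun _ => h⟩

theorem out {f : Perm D} (hf : TF f) {v n s p j : ℕ} (hD : Fintype.card D = 6 * n)
    (F : Finset D) (hF : ∀ d ∈ F, f d ∈ F) (hs : F.card = 3 * s) (hp : 1 ≤ p)
    (hj : 2 * j + p = s + 2) (hn : s + 2 ≤ 2 * n) (β : Perm D) :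
    (({α : Perm D | α ∈ TS f v ∧ inn α F = β ∧ (legs α F).card = p ∧ Plan f α F}.ncard : ℕ) : ℝ) ≤
      ((2 * n - s).factorial : ℝ) * 3 ^ (2 * n - s) *
        ∑ u ∈ Finset.Icc (v - j) (n - j + 2), bc (n - j) u := by
  classical
  set A : Set (Perm D) := {α : Perm D | α ∈ TS f v ∧ inn α F = β ∧ (legs α F).card = p ∧ Plan f α F}
    with hA
  have hbn : ∀ u, 0 ≤ bc (n - j) u := fun u => bc_nonneg _ _
  have hjn : j ≤ n := by omega
  rcases A.eq_empty_or_nonempty with hAe | ⟨α0, hα0⟩
  · rw [hAe, Set.ncard_empty, Nat.cast_zero]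
    exact mul_nonneg (by positivity) (Finset.sum_nonneg fun u _ => hbn u)
  obtain ⟨hT0, hI0, hL0, hP0⟩ := id hα0
  have hfF : ∀ d, f d ∈ F ↔ d ∈ F := by
    intro d
    refine ⟨fun h => ?_, hF d⟩
    have h1 := hF _ (hF _ h)
    rwa [hf.three] at h1
  have hβF : ∀ d, β d ∈ F ↔ d ∈ F := by
    intro d
    rw [← hI0, out_inn hT0]
    by_cases h : d ∈ F ∧ α0 d ∈ F
    · rw [if_pos h]
      exact ⟨fun _ => h.1, fun _ => h.2⟩
    · rw [if_neg h]
  set L : Finset D := F.filter fun d => β d = d with hLd
  have hLα : ∀ α ∈ A, legs α F = L := by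
    rintro α ⟨h1, h2, -, -⟩
    rw [out_legs h1, h2]
  have hLF : L ⊆ F := Finset.filter_subset _ _
  have hLc : L.card = p := by rw [← hLα α0 hα0, hL0]
  have hLn : L.Nonempty := by
    rw [← Finset.card_pos]
    omega
  have hXL : (F \ L) ∪ L = F := Finset.sdiff_union_of_subset hLF
  obtain ⟨l, θ, hl, hl2, t1, t2, t3, t4⟩ := ret (f * β) (F \ L) L Finset.sdiff_disjoint hLn (by
    intro d
    rw [hXL, Perm.mul_apply, hfF, hβF])
  obtain ⟨rs, r1, r2⟩ := out_roots hf (Finset.univ \ F).card (Finset.univ \ F) le_rfl (by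
    intro d hd
    rw [Finset.mem_sdiff] at hd ⊢
    exact ⟨Finset.mem_univ _, fun h => hd.2 ((hfF d).1 h)⟩)
  have r2' : ∀ d, d ∈ tri f rs ↔ d ∉ F := by
    intro d
    rw [r2, Finset.mem_sdiff]
    exact ⟨fun h => h.2, fun h => ⟨Finset.mem_univ _, h⟩⟩
  rw [← lawa_flat] at r1
  have r3 : ∀ d, d ∈ (rs.map fun b => [b, f b, f (f b)]).flatten ↔ d ∉ F := by
    intro d
    rw [lawa_flat]
    exact r2' d
  set c : List (List D) := l :: rs.map fun b => [b, f b, f (f b)] with hc
  have hcn : c.flatten.Nodup := by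
    rw [hc, List.flatten_cons, List.nodup_append]
    refine ⟨hl, r1, ?_⟩
    intro x hx z hz hxz
    rw [← hxz, r3] at hz
    apply hz
    apply hLF
    rw [← hl2]
    exact List.mem_toFinset.2 hx
  have hll : l.length = p := by rw [← List.toFinset_card_of_nodup hl, hl2, hLc]
  have hrl : rs.length = 2 * n - s := by
    have h1 : ((rs.map fun b => [b, f b, f (f b)]).flatten).toFinset = Finset.univ \ F := by
      ext d
      rw [List.mem_toFinset, r3, Finset.mem_sdiff]
      exact ⟨fun h => ⟨Finset.mem_univ _, h⟩, fun h => h.2⟩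
    have h2 := congrArg Finset.card h1
    rw [List.toFinset_card_of_nodup r1, Finset.card_sdiff_of_subset (Finset.subset_univ F),
      Finset.card_univ, hD, hs, List.length_flatten, List.map_map] at h2
    have h3 : (List.length ∘ fun b : D => [b, f b, f (f b)]) = fun _ => 3 := rfl
    rw [h3, List.map_const', List.sum_replicate, smul_eq_mul] at h2
    omega
  have hmap : c.map List.length = p :: List.replicate (2 * n - s) 3 := by
    rw [hc, List.map_cons, hll, List.map_map]
    have h3 : (List.length ∘ fun b : D => [b, f b, f (f b)]) = fun _ => 3 := rfl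
    rw [h3, List.map_const', hrl]
  have hVA : ∀ u, ((VA c u).card : ℝ) ≤
      (((2 * n - s).factorial : ℝ) * 3 ^ (2 * n - s)) * bc (n - j) u := by
    intro u
    obtain ⟨q, rfl⟩ : ∃ q, p = q + 1 := ⟨p - 1, by omega⟩
    have h1 : ((VA c u).card : ℕ) = (K ([q + 1] ++ List.replicate (2 * n - s) 3)).coeff u := by
      rw [← cnt_coeff, cnt_eq c hcn, hmap]
      rfl
    have h2 := kc_coeff [q + 1] (2 * n - s) u
    have h3 := kc_le_one q [] (2 * n - s) u
    have h4 : 2 * n - s + q = 2 * (n - j) + 1 := by omega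
    have h5 : bc (n - j) u = kc [1] (2 * n - s + q) u := by
      rw [h4]
      rfl
    rw [h1, h5]
    have h6 : (0 : ℝ) < ((2 * n - s).factorial : ℝ) * 3 ^ (2 * n - s) := by positivity
    have h7 : ((K ([q + 1] ++ List.replicate (2 * n - s) 3)).coeff u : ℝ) =
        (((2 * n - s).factorial : ℝ) * 3 ^ (2 * n - s)) * kc [q + 1] (2 * n - s) u := by
      rw [h2]
      field_simp
    rw [h7]
    exact mul_le_mul_of_nonneg_left h3 h6.le
  have hsub : ∀ α ∈ A, β * α ∈ (Finset.Icc (v - j) (n - j + 2)).biUnion fun u => VA c u := by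
    intro α hα
    obtain ⟨h1, h2, h3, h4⟩ := id hα
    have hLe := hLα α hα
    have hin : ∀ d, inn α F d = β d := fun d => by rw [h2]
    obtain ⟨k1, k2, k3⟩ := vtx hf hD h1 F hF hs (by rw [hLe]; exact hLn) l θ hl (by rw [hl2, hLe])
      (by rw [hLe]; exact t1) (by rw [hLe]; exact t2)
      (by
        intro d hd
        rw [h2, t3 d (fun h => hd (Finset.mem_sdiff.1 h).1) (fun h => hd (hLF h)), Perm.mul_apply])
      (by rw [hLe, h2]; exact t4) rs r1 r3
    rw [h2] at k1 k2 k3
    rw [← hc] at k1 k2 k3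
    have hvb : vb f α F = j + 1 := by
      unfold Plan at h4
      have h5 : (F.filter fun d => α d ∈ F).card + (legs α F).card = F.card := by
        unfold legs
        exact Finset.card_filter_add_card_filter_not _
      rw [h3, hs] at h5
      rw [hs] at h4
      omega
    rw [hvb] at k3
    have hmem : β * α ∈ VA c (vt c (β * α)) := by
      unfold VA
      rw [Finset.mem_filter]
      exact ⟨Finset.mem_univ _, ⟨k1, k2⟩, rfl⟩
    rw [Finset.mem_biUnion]
    refine ⟨vt c (β * α), ?_, hmem⟩
    rw [Finset.mem_Icc]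
    refine ⟨by omega, ?_⟩
    have h6 : (K (p :: List.replicate (2 * n - s) 3)).coeff (vt c (β * α)) ≠ 0 := by
      rw [← hmap, ← cnt_eq c hcn, cnt_coeff]
      exact Finset.card_ne_zero_of_mem hmem
    have h7 := (K_supp h6).2.1
    rw [List.length_cons, List.sum_cons, List.length_replicate, List.sum_replicate, smul_eq_mul] at h7
    omega
  have hcard : A.ncard ≤ ((Finset.Icc (v - j) (n - j + 2)).biUnion fun u => VA c u).card := by
    rw [Set.ncard_eq_toFinset_card']
    refine Finset.card_le_card_of_injOn (fun α => β * α) ?_ ?_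
    · intro α hα
      rw [Finset.mem_coe, Set.mem_toFinset] at hα
      exact hsub α hα
    · intro a _ b _ hab
      exact mul_left_cancel hab
  have hcard2 : (A.ncard : ℝ) ≤ ∑ u ∈ Finset.Icc (v - j) (n - j + 2), ((VA c u).card : ℝ) := by
    have h1 := hcard.trans Finset.card_biUnion_le
    calc (A.ncard : ℝ) ≤ ((∑ u ∈ Finset.Icc (v - j) (n - j + 2), (VA c u).card : ℕ) : ℝ) :=
          Nat.cast_le.2 h1
      _ = _ := by push_cast; rfl
  refine hcard2.trans ?_
  rw [Finset.mul_sum]
  exact Finset.sum_le_sum fun u _ => hVA u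

end UI39
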