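import Pool.Agent.H39.UI.Out
import Pool.Agent.H39.UI.Inn

/-!
Module PAI. The number of pairs (triangulation, planar region with `s` faces and `p` legs).

Proof. Sum over the `f`-closed sets `F` with `3 s` darts (there are `(2 n).choose s` of them: unions of `s` of the `2 n` cycles of
`f`), over `β ∈ In f F p` (`β = inn α F` is in `In f F p`: `legs`, `vb f β F = vb f α F` because `stp` is the same function on `F`;
`Cf f β F ↔ Cf f α F`; `#(F.filter (α d ∈ F)) = 3 s - p`), `out` for each. `inn_card`: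
`N ≤ C(2n, s) * [(s+p)! 3^(s+p) b0 ((s+p)/2) / p!] * (2n-s)! 3^(2n-s) * Σ`, and
`C(2n,s) s! (2n-s)! = (2n)!`, `(s+p)! = s! p! C(s+p, p)`, `(2n)! 3^(2n) bc n v = 6 n #TS` (`ts_card`).
-/

set_option autoImplicit false

namespace UI39

open Equiv HG39 QD39 UN39

variable {D : Type} [Fintype D] [DecidableEq D]

/-- pairs (triangulation, planar connected region with `s` faces and `p` legs) -/
def PR (f : Perm D) (v s p : ℕ) : Set (Perm D × Finset D) :=
  {q | q.1 ∈ TS f v ∧ (∀ d ∈ q.2, f d ∈ q.2) ∧ q.2.card = 3 * s ∧ Cf f q.1 q.2 ∧ Plan f q.1 q.2 ∧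
    (legs q.1 q.2).card = p}

theorem pai_inn {α : Perm D} (h : ∀ d, α (α d) = d) (F : Finset D) (d : D) :
    inn α F d = if d ∈ F ∧ α d ∈ F then α d else d := by
  unfold inn
  rw [dif_pos h]
  rfl

theorem pai_in {f α : Perm D} {v s p : ℕ} (hα : α ∈ TS f v) {F : Finset D}
    (hs : F.card = 3 * s) (hC : Cf f α F) (hP : Plan f α F) (hp : (legs α F).card = p) :
    inn α F ∈ In f F p := by
  have hPT : PT f α [] := hα.1
  have hi : ∀ d, inn α F d = if d ∈ F ∧ α d ∈ F then α d else d := pai_inn hPT.inv F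
  have hn : ∀ d, α d ≠ d := by
    intro d h
    have h2 := (hPT.leg d).1 h
    simp [tri] at h2
  have hst : ∀ d, stp f (inn α F) F d = stp f α F d := by
    intro d
    unfold stp
    rw [hi d]
    by_cases h1 : d ∈ F
    · by_cases h2 : α d ∈ F
      · simp [h1, h2]
      · simp [h1, h2]
    · simp [h1]
  have hvb : vb f (inn α F) F = vb f α F := by
    unfold vb
    simp only [hst]
  have hleg : (F.filter fun d => inn α F d = d) = legs α F := by
    unfold legs
    ext d
    rw [Finset.mem_filter, Finset.mem_filter, hi d]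
    by_cases h1 : d ∈ F
    · by_cases h2 : α d ∈ F
      · simp [h1, h2, hn d]
      · simp [h1, h2]
    · simp [h1]
  refine ⟨?_, ?_, ?_, ?_, ?_, ?_⟩
  · intro d
    rw [hi d]
    by_cases h1 : d ∈ F ∧ α d ∈ F
    · rw [if_pos h1, hi (α d), hPT.inv d, if_pos ⟨h1.2, h1.1⟩]
    · rw [if_neg h1, hi d, if_neg h1]
  · intro d hd
    rw [hi d, if_neg fun h => hd h.1]
  · intro d hd
    rw [hi d]
    by_cases h1 : d ∈ F ∧ α d ∈ F
    · rw [if_pos h1]
      exact h1.2
    · rw [if_neg h1]
      exact hd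
  · rw [hleg, hp]
  · intro S h1 h2 h3
    refine hC S h1 ?_ h3
    intro d hd hd2 hS
    have h4 : inn α F d = α d := by
      rw [hi d, if_pos ⟨hd, hd2⟩]
    have h5 := h2 d hd (by rw [h4]; exact hd2) hS
    rw [h4] at h5
    exact h5
  · rw [hvb]
    unfold Plan at hP
    have h6 : (F.filter fun d => α d ∈ F).card + (F.filter fun d => α d ∉ F).card = F.card :=
      Finset.card_filter_add_card_filter_not _
    unfold legs at hp
    omega

omit [Fintype D] [DecidableEq D] in
theorem pai_tri {f : Perm D} (l : List D) : (tri f l).length = 3 * l.length := by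
  unfold tri
  induction l with
  | nil => rfl
  | cons a l ih =>
    rw [List.flatMap_cons, List.length_append, ih]
    simp only [List.length_cons, List.length_nil]
    omega

theorem pai_cl {f : Perm D} (hf : TF f) {n : ℕ} (hD : Fintype.card D = 6 * n) (s : ℕ)
    (Fs : Finset (Finset D)) (hFs : ∀ F ∈ Fs, (∀ d ∈ F, f d ∈ F) ∧ F.card = 3 * s) :
    Fs.card ≤ (2 * n).choose s := by
  obtain ⟨rs, h1, h2⟩ := lawa_ext hf (Fintype.card D) [] (by simp [tri]) (by omega)
  rw [List.nil_append] at h1 h2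
  have hlen : (tri f rs).length = Fintype.card D := by
    rw [← List.toFinset_card_of_nodup h1, ← Finset.card_univ]
    congr 1
    ext d
    simp [h2 d]
  rw [pai_tri, hD] at hlen
  have hnd : rs.Nodup := by
    have h3 : ∀ l : List D, (tri f l).Nodup → l.Nodup := by
      intro l
      induction l with
      | nil => intro _; exact List.nodup_nil
      | cons a l ih =>
        intro h
        have e1 : tri f (a :: l) = [a, f a, f (f a)] ++ tri f l := by
          unfold tri
          rw [List.flatMap_cons]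
        rw [e1, List.nodup_append] at h
        refine List.nodup_cons.2 ⟨?_, ih h.2.1⟩
        intro ha
        exact h.2.2 a (by simp) a (lawa_mem.2 ⟨a, ha, Or.inl rfl⟩) rfl
    exact h3 rs h1
  have hmem : ∀ F ∈ Fs, ∀ d, d ∈ F ↔ d ∈ tri f (rs.filter (fun x => x ∈ F)) := by
    intro F hF d
    obtain ⟨hF1, -⟩ := hFs F hF
    rw [lawa_mem]
    constructor
    · intro hd
      obtain ⟨b, hb, hbd⟩ := lawa_mem.1 (h2 d)
      refine ⟨b, ?_, hbd⟩
      rw [List.mem_filter]
      refine ⟨hb, ?_⟩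
      rw [decide_eq_true_eq]
      rcases hbd with h | h | h
      · rw [← h]
        exact hd
      · have h3 := hF1 _ (hF1 _ hd)
        rw [h, hf.three] at h3
        exact h3
      · have h3 := hF1 _ hd
        rw [h, hf.three] at h3
        exact h3
    · rintro ⟨b, hb, hbd⟩
      rw [List.mem_filter, decide_eq_true_eq] at hb
      rcases hbd with h | h | h
      · rw [h]
        exact hb.2
      · rw [h]
        exact hF1 _ hb.2
      · rw [h]
        exact hF1 _ (hF1 _ hb.2)
  have hsub : ∀ F : Finset D, (tri f (rs.filter (fun x => x ∈ F))).Nodup := by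
    intro F
    refine List.Nodup.sublist ?_ h1
    unfold tri
    exact List.Sublist.flatMap List.filter_sublist _
  have hcard : ∀ F ∈ Fs, (rs.toFinset.filter (fun x => x ∈ F)).card = s := by
    intro F hF
    have e1 : F = (tri f (rs.filter (fun x => x ∈ F))).toFinset := by
      ext d
      rw [List.mem_toFinset]
      exact hmem F hF d
    have e2 : F.card = 3 * (rs.filter (fun x => x ∈ F)).length := by
      rw [← pai_tri (f := f), ← List.toFinset_card_of_nodup (hsub F), ← e1]
    have e3 : rs.toFinset.filter (fun x => x ∈ F) = (rs.filter (fun x => x ∈ F)).toFinset := by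
      ext d
      simp
    rw [e3, List.toFinset_card_of_nodup (hnd.filter _)]
    have e4 := (hFs F hF).2
    omega
  have hR : rs.toFinset.card = 2 * n := by
    rw [List.toFinset_card_of_nodup hnd]
    omega
  rw [← hR, ← Finset.card_powersetCard]
  refine Finset.card_le_card_of_injOn (fun F => rs.toFinset.filter (fun x => x ∈ F)) ?_ ?_
  · intro F hF
    rw [Finset.mem_coe, Finset.mem_powersetCard]
    exact ⟨Finset.filter_subset _ _, hcard F hF⟩
  · intro F hF G hG hFG
    have hFG' : rs.toFinset.filter (fun x => x ∈ F) = rs.toFinset.filter (fun x => x ∈ G) := hFG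
    have e1 : rs.filter (fun x => x ∈ F) = rs.filter (fun x => x ∈ G) := by
      refine List.filter_congr ?_
      intro x hx
      have h3 : x ∈ rs.toFinset.filter (fun x => x ∈ F) ↔
          x ∈ rs.toFinset.filter (fun x => x ∈ G) := by rw [hFG']
      rw [Finset.mem_filter, Finset.mem_filter, List.mem_toFinset] at h3
      rw [decide_eq_decide]
      constructor
      · intro h
        exact (h3.1 ⟨hx, h⟩).2
      · intro h
        exact (h3.2 ⟨hx, h⟩).2
    ext d
    rw [hmem F hF d, hmem G hG d, e1]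

theorem pai {f : Perm D} (hf : TF f) {v n s p j : ℕ} (hD : Fintype.card D = 6 * n) (hs : 1 ≤ s)
    (hp : 1 ≤ p) (hj : 2 * j + p = s + 2) (hn : s + 2 ≤ 2 * n) :
    ((PR f v s p).ncard : ℝ) * bc n v ≤ 6 * n * ((TS f v).ncard : ℝ) * ((s + p).choose p : ℝ) * 3 ^ p *
      b0 ((s + p) / 2) * ∑ u ∈ Finset.Icc (v - j) (n - j + 2), bc (n - j) u := by
  classical
  obtain ⟨Sg, hSg⟩ : ∃ Sg : ℝ, Sg = ∑ u ∈ Finset.Icc (v - j) (n - j + 2), bc (n - j) u := ⟨_, rfl⟩
  have hSg0 : 0 ≤ Sg := by
    rw [hSg]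
    exact Finset.sum_nonneg fun u _ => bc_nonneg _ _
  rw [← hSg]
  obtain ⟨P, hPd⟩ : ∃ P : Finset (Perm D × Finset D), P = Finset.univ.filter (· ∈ PR f v s p) :=
    ⟨_, rfl⟩
  have hPc : (PR f v s p).ncard = P.card := by
    rw [Set.ncard_eq_toFinset_card', hPd]
    congr 1
    ext q
    simp
  have hPm : ∀ q, q ∈ P ↔ q ∈ PR f v s p := by
    intro q
    rw [hPd]
    simp
  obtain ⟨Fs, hFsd⟩ : ∃ Fs : Finset (Finset D),
      Fs = Finset.univ.filter (fun F => (∀ d ∈ F, f d ∈ F) ∧ F.card = 3 * s) := ⟨_, rfl⟩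
  have hFm : ∀ F ∈ Fs, (∀ d ∈ F, f d ∈ F) ∧ F.card = 3 * s := by
    intro F hF
    rw [hFsd, Finset.mem_filter] at hF
    exact hF.2
  have hFc : (Fs.card : ℝ) ≤ ((2 * n).choose s : ℝ) := by
    exact_mod_cast pai_cl hf hD s Fs hFm
  obtain ⟨O, hO⟩ : ∃ O : ℝ, O = ((2 * n - s).factorial : ℝ) * 3 ^ (2 * n - s) * Sg := ⟨_, rfl⟩
  have hO0 : 0 ≤ O := by
    rw [hO]
    positivity
  obtain ⟨A, hA⟩ : ∃ A : ℝ, A = ((s + p).factorial : ℝ) * 3 ^ (s + p) * b0 ((s + p) / 2) :=
    ⟨_, rfl⟩
  have hA0 : 0 ≤ A := by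
    rw [hA]
    have := b0_pos ((s + p) / 2)
    positivity
  have hfib : ∀ F ∈ Fs, (((P.filter fun q => q.2 = F).card : ℕ) : ℝ) * (p.factorial : ℝ) ≤
      A * O := by
    intro F hF
    obtain ⟨hF1, hF2⟩ := hFm F hF
    have h1 := inn_card hf F hF1 hF2 hs (p := p)
    rw [← hA] at h1
    obtain ⟨I, hI⟩ : ∃ I : Finset (Perm D), I = Finset.univ.filter (· ∈ In f F p) := ⟨_, rfl⟩
    have hIc : (In f F p).ncard = I.card := by
      rw [Set.ncard_eq_toFinset_card', hI]
      congr 1
      ext q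
      simp
    have hmap : ∀ q ∈ P.filter (fun q => q.2 = F), inn q.1 F ∈ I := by
      intro q hq
      rw [Finset.mem_filter, hPm] at hq
      obtain ⟨⟨a1, a2, a3, a4, a5, a6⟩, a7⟩ := hq
      rw [a7] at a2 a3 a4 a5 a6
      rw [hI, Finset.mem_filter]
      exact ⟨Finset.mem_univ _, pai_in a1 a3 a4 a5 a6⟩
    have h2 := Finset.card_eq_sum_card_fiberwise (f := fun q : Perm D × Finset D => inn q.1 F)
      (s := P.filter (fun q => q.2 = F)) (t := I) hmap
    have h3 : ∀ β ∈ I, ((((P.filter fun q => q.2 = F).filter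
        fun q => inn q.1 F = β).card : ℕ) : ℝ) ≤ O := by
      intro β hβ
      have h4 := out hf (v := v) hD F hF1 hF2 hp hj hn β
      rw [← hSg, ← hO] at h4
      refine le_trans ?_ h4
      rw [Nat.cast_le, Set.ncard_eq_toFinset_card']
      refine Finset.card_le_card_of_injOn (fun q => q.1) ?_ ?_
      · intro q hq
        rw [Finset.mem_coe, Finset.mem_filter, Finset.mem_filter, hPm] at hq
        obtain ⟨⟨⟨a1, a2, a3, a4, a5, a6⟩, a7⟩, a8⟩ := hq
        rw [a7] at a2 a3 a4 a5 a6
        rw [Finset.mem_coe, Set.mem_toFinset]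
        exact ⟨a1, a8, a6, a5⟩
      · intro q hq r hr hqr
        rw [Finset.mem_coe, Finset.mem_filter, Finset.mem_filter] at hq hr
        refine Prod.ext hqr ?_
        rw [hq.1.2, hr.1.2]
    have h5 : (((P.filter fun q => q.2 = F).card : ℕ) : ℝ) ≤ (I.card : ℝ) * O := by
      rw [h2]
      push_cast
      refine le_trans (Finset.sum_le_sum h3) ?_
      rw [Finset.sum_const, nsmul_eq_mul]
    rw [hIc] at h1
    calc (((P.filter fun q => q.2 = F).card : ℕ) : ℝ) * (p.factorial : ℝ)
        ≤ ((I.card : ℝ) * O) * (p.factorial : ℝ) :=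
          mul_le_mul_of_nonneg_right h5 (by positivity)
      _ = ((I.card : ℝ) * (p.factorial : ℝ)) * O := by ring
      _ ≤ A * O := mul_le_mul_of_nonneg_right h1 hO0
  have hmapF : ∀ q ∈ P, q.2 ∈ Fs := by
    intro q hq
    rw [hPm] at hq
    obtain ⟨a1, a2, a3, a4, a5, a6⟩ := hq
    rw [hFsd, Finset.mem_filter]
    exact ⟨Finset.mem_univ _, a2, a3⟩
  have h6 := Finset.card_eq_sum_card_fiberwise (f := fun q : Perm D × Finset D => q.2)
    (s := P) (t := Fs) hmapF
  have h7 : (P.card : ℝ) * (p.factorial : ℝ) ≤ ((2 * n).choose s : ℝ) * (A * O) := by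
    rw [h6]
    push_cast
    rw [Finset.sum_mul]
    refine le_trans (Finset.sum_le_sum hfib) ?_
    rw [Finset.sum_const, nsmul_eq_mul]
    exact mul_le_mul_of_nonneg_right hFc (mul_nonneg hA0 hO0)
  have hn1 : 1 ≤ n := by omega
  have h8 := ts_card hf hD hn1 v
  have e1 : (((2 * n).choose s : ℕ) : ℝ) * (s.factorial : ℝ) * ((2 * n - s).factorial : ℝ) =
      ((2 * n).factorial : ℝ) := by
    exact_mod_cast Nat.choose_mul_factorial_mul_factorial (show s ≤ 2 * n by omega)
  have e2 : (((s + p).choose p : ℕ) : ℝ) * (p.factorial : ℝ) * (s.factorial : ℝ) =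
      ((s + p).factorial : ℝ) := by
    have h9 := Nat.choose_mul_factorial_mul_factorial (show p ≤ s + p by omega)
    rw [Nat.add_sub_cancel] at h9
    exact_mod_cast h9
  have e3 : (3 : ℝ) ^ (s + p) * 3 ^ (2 * n - s) = 3 ^ (2 * n) * 3 ^ p := by
    rw [← pow_add, ← pow_add]
    congr 1
    omega
  have hp0 : (0 : ℝ) < (p.factorial : ℝ) := by positivity
  have h10 : ((2 * n).choose s : ℝ) * (A * O) = (((2 * n).factorial : ℝ) * 3 ^ (2 * n) *
      ((s + p).choose p : ℝ) * 3 ^ p * b0 ((s + p) / 2) * Sg) * (p.factorial : ℝ) := by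
    rw [hA, hO, ← e1, ← e2]
    linear_combination (((2 * n).choose s : ℝ) * (((s + p).choose p : ℕ) : ℝ) *
      (p.factorial : ℝ) * (s.factorial : ℝ) * ((2 * n - s).factorial : ℝ) * b0 ((s + p) / 2) *
      Sg) * e3
  have h11 : (P.card : ℝ) ≤ ((2 * n).factorial : ℝ) * 3 ^ (2 * n) *
      ((s + p).choose p : ℝ) * 3 ^ p * b0 ((s + p) / 2) * Sg := by
    rw [h10] at h7
    exact le_of_mul_le_mul_right h7 hp0
  rw [hPc]
  calc (P.card : ℝ) * bc n v ≤ (((2 * n).factorial : ℝ) * 3 ^ (2 * n) *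
      ((s + p).choose p : ℝ) * 3 ^ p * b0 ((s + p) / 2) * Sg) * bc n v :=
        mul_le_mul_of_nonneg_right h11 (bc_nonneg n v)
    _ = (((TS f v).ncard : ℝ) * (6 * n)) * (((s + p).choose p : ℝ) * 3 ^ p *
        b0 ((s + p) / 2) * Sg) := by
        rw [h8]
        ring
    _ = _ := by ring

end UI39
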