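import Pool.Agent.H39.UI.Defs

/-!
Module PIECE. Small pieces: the product of the numbers for a small piece (size `i`, genus `g`) and the rest (`a`, `k`: offsets).

Proof. `rb` (UP/Rb): `lp < lamc`, `C0`, `δ0`. First `bc (n+a) (w+a) ≤ C1 bc n w` for `a ≤ A` (`rb_up` `a` times). Apply `rb` at
`(n + a, w + a)` (region `ω1/2 .. (1+ω2)/2`): `bc (n+a-i) (w+a-i+2g+2k) ≤ lp^i (C0/n^2)^(g+k) bc (n+a) (w+a)` for `i ≤ δ0 n`.
Let `η > 1` with `η lp < lamc`, `d` with `qd d ≤ η` (`qd_lim`), `N = (i+2)/d`: `beta_pt`: `bc i (i+2-2g) ≤ qd d ^ i * b0 i * N^(2g)`,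
`b0 i ≤ 2 lamc^(-i)` (`b0_le`). Product: `2 C1 (η lp/lamc)^i (C0 (i+2)^2/(d^2 n^2))^g (C0/n^2)^k bc n w`. `(i+2)^2 ≤ 4 (i+1)^2`.
-/

set_option autoImplicit false

namespace UI39

open UN39

theorem piece_up {ω1 ω2 : ℝ} (h1 : 0 < ω1) (h2 : ω2 < 1) (A : ℕ) : ∃ C : ℝ, ∃ n0 : ℕ, 1 ≤ C ∧ 1 ≤ n0 ∧
    A ≤ n0 ∧ ∀ n w a : ℕ, n0 ≤ n → ω1 * n ≤ w → (w : ℝ) ≤ ω2 * n → a ≤ A →
      ω1 / 2 * ((n + a : ℕ) : ℝ) ≤ ((w + a : ℕ) : ℝ) ∧ ((w + a : ℕ) : ℝ) ≤ (1 + ω2) / 2 * ((n + a : ℕ) : ℝ) ∧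
      bc (n + a) (w + a) ≤ C * bc n w := by
  obtain ⟨C0, N, hC0, hN⟩ := rb_up (ω1 := ω1 / 2) (ω2 := (1 + ω2) / 2) (by linarith) (by linarith)
  obtain ⟨M, hM⟩ := exists_nat_ge (2 * (A : ℝ) / (1 - ω2))
  have hreg : ∀ n w a : ℕ, N + A + M + 1 ≤ n → ω1 * n ≤ w → (w : ℝ) ≤ ω2 * n → a ≤ A →
      ω1 / 2 * ((n + a : ℕ) : ℝ) ≤ ((w + a : ℕ) : ℝ) ∧
      ((w + a : ℕ) : ℝ) ≤ (1 + ω2) / 2 * ((n + a : ℕ) : ℝ) := by
    intro n w a hn ha hb haA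
    have hn0 : (0 : ℝ) < n := by exact_mod_cast (by omega : 0 < n)
    have hω : ω1 < 1 := by
      by_contra hcon
      push Not at hcon
      nlinarith
    have hMn : (M : ℝ) ≤ n := by exact_mod_cast (by omega : M ≤ n)
    have hA : (a : ℝ) ≤ A := by exact_mod_cast haA
    have ha0 : (0 : ℝ) ≤ a := Nat.cast_nonneg a
    rw [div_le_iff₀ (by linarith)] at hM
    have h3 : 2 * (A : ℝ) ≤ n * (1 - ω2) := hM.trans (mul_le_mul_of_nonneg_right hMn (by linarith))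
    push_cast
    constructor
    · nlinarith
    · by_cases hω2 : 0 ≤ 1 + ω2
      · have h4 : 0 ≤ (1 + ω2) / 2 * a := mul_nonneg (by linarith) ha0
        nlinarith
      · exfalso
        have : (0 : ℝ) ≤ w := Nat.cast_nonneg w
        nlinarith
  refine ⟨(max C0 1) ^ A, N + A + M + 1, one_le_pow₀ (le_max_right _ _), by omega, by omega, ?_⟩
  intro n w a hn ha hb haA
  refine ⟨(hreg n w a hn ha hb haA).1, (hreg n w a hn ha hb haA).2, ?_⟩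
  have hmain : ∀ a ≤ A, bc (n + a) (w + a) ≤ (max C0 1) ^ a * bc n w := by
    intro a
    induction a with
    | zero =>
      intro _
      simp
    | succ a ih =>
      intro haA'
      obtain ⟨r1, r2⟩ := hreg n w a hn ha hb (by omega)
      have h3 := hN (n + a) (w + a) (by omega) r1 r2
      calc bc (n + (a + 1)) (w + (a + 1)) ≤ C0 * bc (n + a) (w + a) := h3
        _ ≤ max C0 1 * bc (n + a) (w + a) :=
            mul_le_mul_of_nonneg_right (le_max_left _ _) (bc_nonneg _ _)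
        _ ≤ max C0 1 * ((max C0 1) ^ a * bc n w) :=
            mul_le_mul_of_nonneg_left (ih (by omega)) (le_trans zero_le_one (le_max_right _ _))
        _ = (max C0 1) ^ (a + 1) * bc n w := by ring
  refine (hmain a haA).trans (mul_le_mul_of_nonneg_right ?_ (bc_nonneg _ _))
  exact pow_le_pow_right₀ (le_max_right _ _) haA

theorem piece {ω1 ω2 : ℝ} (h1 : 0 < ω1) (h2 : ω2 < 1) (A : ℕ) : ∃ θ C δ : ℝ, ∃ n0 : ℕ, 0 < θ ∧ θ < 1 ∧
    0 < C ∧ 0 < δ ∧ ∀ n w i g k a : ℕ, n0 ≤ n → ω1 * n ≤ w → (w : ℝ) ≤ ω2 * n → w % 2 = n % 2 → a ≤ A →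
      (i : ℝ) ≤ δ * n → 2 * g ≤ i + 2 →
      bc i (i + 2 - 2 * g) * bc (n + a - i) (w + a - i + 2 * g + 2 * k) ≤
        C * θ ^ i * (C * ((i : ℝ) + 1) ^ 2 / (n : ℝ) ^ 2) ^ g * (C / (n : ℝ) ^ 2) ^ k * bc n w := by
  obtain ⟨C1, N1, hC1, hN1, hAN, hup⟩ := piece_up h1 h2 A
  obtain ⟨lp, C0, δ0, N0, hlp, hlpc, hC0, hδ0, hrb⟩ :=
    rb (ω1 := ω1 / 2) (ω2 := (1 + ω2) / 2) (by linarith) (by linarith)
  have hlc : 0 < lamc := lamc_pos.1
  set η : ℝ := (1 + lamc / lp) / 2 with hη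
  have hη1 : 1 < η := by
    have : 1 < lamc / lp := by rwa [one_lt_div hlp]
    rw [hη]
    linarith
  have hηlp : η * lp < lamc := by
    have : lamc / lp * lp = lamc := div_mul_cancel₀ _ hlp.ne'
    have h3 : η * lp = (lp + lamc) / 2 := by
      rw [hη]
      linear_combination this / 2
    rw [h3]
    linarith
  obtain ⟨d, hd, hd1, hqd⟩ := qd_lim hη1
  have hqd' : qd d ≤ η := hqd d hd le_rfl
  have hqd0 : 1 ≤ qd d := qd_one hd hd1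
  set θ : ℝ := η * lp / lamc with hθ
  have hθ0 : 0 < θ := by positivity
  have hθ1 : θ < 1 := by rwa [hθ, div_lt_one hlc]
  set C : ℝ := 2 * C1 + 4 * C0 / d ^ 2 + C0 with hC
  have hCa : 2 * C1 ≤ C := by
    have : 0 < 4 * C0 / d ^ 2 := by positivity
    linarith
  have hCb : 4 * C0 / d ^ 2 ≤ C := by linarith
  have hCc : C0 ≤ C := by
    have : 0 < 4 * C0 / d ^ 2 := by positivity
    linarith
  have hCpos : 0 < C := by linarith
  refine ⟨θ, C, δ0, N1 + N0, hθ0, hθ1, hCpos, hδ0, ?_⟩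
  intro n w i g k a hn ha hb hpar haA hi hg
  obtain ⟨r1, r2, r3⟩ := hup n w a (by omega) ha hb haA
  have hn0 : (0 : ℝ) < n := by exact_mod_cast (by omega : 0 < n)
  have hi' : (i : ℝ) ≤ δ0 * ((n + a : ℕ) : ℝ) := by
    refine hi.trans (mul_le_mul_of_nonneg_left ?_ hδ0.le)
    exact_mod_cast Nat.le_add_right n a
  have e1 := hrb (n + a) (w + a) i (g + k) (by omega) r1 r2 hi'
  have e0 : w + a - i + 2 * g + 2 * k = w + a - i + 2 * (g + k) := by ring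
  rw [e0]
  have hi0 : (0 : ℝ) ≤ i := Nat.cast_nonneg i
  have e2 : (C0 / ((n + a : ℕ) : ℝ) ^ 2) ^ (g + k) ≤ (C0 / (n : ℝ) ^ 2) ^ (g + k) := by
    have : (n : ℝ) ≤ ((n + a : ℕ) : ℝ) := by exact_mod_cast Nat.le_add_right n a
    gcongr
  have e3 : bc (n + a - i) (w + a - i + 2 * (g + k))
      ≤ lp ^ i * (C0 / (n : ℝ) ^ 2) ^ (g + k) * (C1 * bc n w) := by
    refine e1.trans ?_
    have := bc_nonneg (n + a) (w + a)
    gcongr
  have e4 := beta_pt hd hd1 i (N := ((i : ℝ) + 2) / d) le_rfl g hg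
  have e5 : bc i (i + 2 - 2 * g) ≤ η ^ i * (2 * (1 / lamc) ^ i) * (((i : ℝ) + 2) / d) ^ (2 * g) := by
    refine e4.trans ?_
    have hb0 := b0_le i
    have hb0' := (b0_pos i).le
    gcongr
  have hbn := bc_nonneg n w
  have hbi := bc_nonneg i (i + 2 - 2 * g)
  calc bc i (i + 2 - 2 * g) * bc (n + a - i) (w + a - i + 2 * (g + k))
      ≤ (η ^ i * (2 * (1 / lamc) ^ i) * (((i : ℝ) + 2) / d) ^ (2 * g)) *
        (lp ^ i * (C0 / (n : ℝ) ^ 2) ^ (g + k) * (C1 * bc n w)) :=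
        mul_le_mul e5 e3 (bc_nonneg _ _) (by positivity)
    _ = 2 * C1 * θ ^ i * (C0 * (((i : ℝ) + 2) / d) ^ 2 / (n : ℝ) ^ 2) ^ g * (C0 / (n : ℝ) ^ 2) ^ k *
        bc n w := by
        have e6 : C0 * (((i : ℝ) + 2) / d) ^ 2 / (n : ℝ) ^ 2
            = (((i : ℝ) + 2) / d) ^ 2 * (C0 / (n : ℝ) ^ 2) := by ring
        have e7 : θ ^ i = η ^ i * lp ^ i * (1 / lamc) ^ i := by
          rw [hθ, ← mul_pow, ← mul_pow]
          congr 1
          ring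
        rw [e6, e7, mul_pow, ← pow_mul, pow_add]
        ring
    _ ≤ C * θ ^ i * (C * ((i : ℝ) + 1) ^ 2 / (n : ℝ) ^ 2) ^ g * (C / (n : ℝ) ^ 2) ^ k * bc n w := by
        have e8 : C0 * (((i : ℝ) + 2) / d) ^ 2 ≤ C * ((i : ℝ) + 1) ^ 2 := by
          calc C0 * (((i : ℝ) + 2) / d) ^ 2 = C0 / d ^ 2 * ((i : ℝ) + 2) ^ 2 := by
                rw [div_pow]; ring
            _ ≤ C0 / d ^ 2 * (4 * ((i : ℝ) + 1) ^ 2) := by
                have : ((i : ℝ) + 2) ^ 2 ≤ 4 * ((i : ℝ) + 1) ^ 2 := by nlinarith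
                gcongr
            _ = 4 * C0 / d ^ 2 * ((i : ℝ) + 1) ^ 2 := by ring
            _ ≤ C * ((i : ℝ) + 1) ^ 2 := by gcongr
        gcongr

end UI39
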