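import Pool.Agent.H39.UI.Defs

/-!
Module RET. Removing the darts of `X` from the cycles of a permutation and joining the rest to one cycle.

Proof. Call a step `π → π'` good if for all `γ` which fix `X` pointwise `cyc (π * γ) + cyc π' ≤ cyc (π' * γ) + cyc π`; good steps
compose (add the inequalities). Induction on (number of non-fixed points of `π` in `X`) + (number of cycles of `π` which meet
`L`).
(A) Some `x ∈ X` with `π x ≠ x`. Put `π' = swap x (π x) * π`. Then `π' x = x`, `π' (π⁻¹ x) = π x`, otherwise `π' = π`; `π'`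
still preserves `X ∪ L`, agrees with `π` outside `X ∪ L`, has one non-fixed point less in `X` (a point `y ∈ X` with
`π y = x`, `y ≠ x`: `π' y = π x`, which may be `y`: then one more becomes fixed, fine), and the number of cycles which meet
`L` does not change (or: use the measure lexicographically). For every `γ` with `γ x = x` the permutation `π' * γ` fixes `x`, and
`π * γ = swap x (π x) * (π' * γ)`, `π x ≠ x`, so `cyc_fix` (UN/RedA: `W a = a → x ≠ a → cyc (swap a x * W) + 1 = cyc W`) gives
`cyc (π * γ) + 1 = cyc (π' * γ)`; also for `γ = 1`. So the step is good (equality).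
(B) All points of `X` are fixed by `π` and there are `d, e ∈ L` in different cycles of `π`. Put `π' = π * swap d e`. It fixes `X`,
agrees with `π` off `X ∪ L`, preserves `X ∪ L`, joins the two cycles: `cyc π' + 1 = cyc π`, and
`π' * γ = (π * γ) * swap (γ⁻¹ d) (γ⁻¹ e)`, so `cyc (π * γ) ≤ cyc (π' * γ) + 1` (multiplication by a transposition changes the
number of cycles by one; see HG/GrPerm and HG/GraphA for `cyc` and `swap`). Good.
(C) All points of `X` fixed, `L` is contained in one cycle of `π`; this cycle is contained in `X ∪ L`, hence equal to `L` (if it has a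
point of `X` it is a fixed point). If `L = {d}` take `l = [d]`, otherwise `l = π.toList d` (`Equiv.Perm.toList`,
`formPerm_toList`, `cycleOf`). `θ = π`.
-/

set_option autoImplicit false

namespace UI39

open Equiv HG39 QD39 UN39

variable {D : Type} [Fintype D] [DecidableEq D]

omit [Fintype D] in
private theorem ret_swap_mem {a b : D} {S : Finset D} (ha : a ∈ S) (hb : b ∈ S) (y : D) :
    swap a b y ∈ S ↔ y ∈ S := by
  by_cases h1 : y = a
  · subst h1
    rw [Equiv.swap_apply_left]
    exact ⟨fun _ => ha, fun _ => hb⟩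
  · by_cases h2 : y = b
    · subst h2
      rw [Equiv.swap_apply_right]
      exact ⟨fun _ => hb, fun _ => ha⟩
    · rw [Equiv.swap_apply_of_ne_of_ne h1 h2]

private theorem ret_base (π : Perm D) (X L : Finset D) (hL : L.Nonempty)
    (hp : ∀ d, d ∈ X ∪ L ↔ π d ∈ X ∪ L) (hX : ∀ x ∈ X, π x = x)
    (hs : ∀ d ∈ L, ∀ e ∈ L, π.SameCycle d e) :
    ∃ l : List D, l.Nodup ∧ l.toFinset = L ∧ ∀ d ∈ L, π d = l.formPerm d := by
  have hpL : ∀ d ∈ L, π d ∈ L := by
    intro d hdL
    have h1 : π d ∈ X ∪ L := (hp d).1 (Finset.mem_union_right _ hdL)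
    rcases Finset.mem_union.1 h1 with h2 | h2
    · have h3 := hX _ h2
      have h4 : π d = d := π.injective h3
      rw [h4]
      exact hdL
    · exact h2
  obtain ⟨d0, hd0⟩ := hL
  by_cases h0 : π d0 = d0
  · have hLs : L = {d0} := by
      ext e
      rw [Finset.mem_singleton]
      constructor
      · intro he
        obtain ⟨n, hn⟩ := hs d0 hd0 e he
        rw [Equiv.Perm.zpow_apply_eq_self_of_apply_eq_self h0 n] at hn
        exact hn.symm
      · rintro rfl
        exact hd0
    refine ⟨[d0], List.nodup_singleton d0, ?_, ?_⟩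
    · rw [hLs]
      rfl
    · intro d hdd
      rw [hLs, Finset.mem_singleton] at hdd
      subst hdd
      simp [h0]
  · refine ⟨π.toList d0, Equiv.Perm.nodup_toList π d0, ?_, ?_⟩
    · ext e
      rw [List.mem_toFinset, Equiv.Perm.mem_toList_iff]
      constructor
      · rintro ⟨h1, _⟩
        obtain ⟨n, _, hn⟩ := h1.exists_pow_eq'
        rw [← hn]
        have : ∀ k : ℕ, (π ^ k) d0 ∈ L := by
          intro k
          induction k with
          | zero => simpa using hd0
          | succ k ih =>
            rw [pow_succ', Equiv.Perm.mul_apply]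
            exact hpL _ ih
        exact this n
      · intro he
        exact ⟨hs d0 hd0 e he, Equiv.Perm.mem_support.2 h0⟩
    · intro d hdL
      rw [Equiv.Perm.formPerm_toList]
      exact ((hs d0 hd0 d hdL).cycleOf_apply).symm

private theorem ret_aux (X L : Finset D) (hd : Disjoint X L) (hL : L.Nonempty) :
    ∀ (n : ℕ) (π : Perm D), 2 * (X.filter fun x => π x ≠ x).card + cyc π = n →
    (∀ d, d ∈ X ∪ L ↔ π d ∈ X ∪ L) →
    ∃ (l : List D) (θ : Perm D), l.Nodup ∧ l.toFinset = L ∧ (∀ d ∈ L, θ d = l.formPerm d) ∧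
      (∀ d ∈ X, θ d = d) ∧ (∀ d, d ∉ X → d ∉ L → θ d = π d) ∧
      ∀ γ : Perm D, (∀ x ∈ X, γ x = x) → cyc (π * γ) + cyc θ ≤ cyc (θ * γ) + cyc π := by
  intro n
  induction n using Nat.strong_induction_on with
  | _ n ih =>
  intro π hn hp
  by_cases hA : ∃ x ∈ X, π x ≠ x
  · obtain ⟨x, hx, hpx⟩ := hA
    have hxU : x ∈ X ∪ L := Finset.mem_union_left _ hx
    have hpxU : π x ∈ X ∪ L := (hp x).1 hxU
    have hfx : (swap x (π x) * π) x = x := by
      rw [Equiv.Perm.mul_apply, Equiv.swap_apply_right]
    have hcy : ∀ γ : Perm D, (∀ x ∈ X, γ x = x) →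
        cyc (π * γ) + 1 = cyc (swap x (π x) * π * γ) := by
      intro γ hγ
      have h1 : (swap x (π x) * π * γ) x = x := by
        rw [Equiv.Perm.mul_apply, hγ x hx, hfx]
      have h2 := cyc_fix h1 hpx
      rwa [← mul_assoc, ← mul_assoc, Equiv.swap_mul_self, one_mul] at h2
    have hc1 : cyc π + 1 = cyc (swap x (π x) * π) := by
      have := hcy 1 (fun _ _ => rfl)
      rwa [mul_one, mul_one] at this
    have hoff : ∀ d, π d ≠ x → π d ≠ π x → (swap x (π x) * π) d = π d := by
      intro d h1 h2
      rw [Equiv.Perm.mul_apply, Equiv.swap_apply_of_ne_of_ne h1 h2]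
    have hlt : (X.filter fun y => (swap x (π x) * π) y ≠ y).card <
        (X.filter fun y => π y ≠ y).card := by
      refine Finset.card_lt_card ?_
      rw [Finset.ssubset_iff_of_subset]
      · exact ⟨x, Finset.mem_filter.2 ⟨hx, hpx⟩, fun h => (Finset.mem_filter.1 h).2 hfx⟩
      · intro y hy
        rw [Finset.mem_filter] at hy ⊢
        refine ⟨hy.1, fun h => hy.2 ?_⟩
        have hyx : y ≠ x := by
          rintro rfl
          exact hpx h
        rw [hoff y (by rw [h]; exact hyx) (fun h' => hyx (π.injective h'))]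
        exact h
    have hp' : ∀ d, d ∈ X ∪ L ↔ (swap x (π x) * π) d ∈ X ∪ L := by
      intro d
      rw [Equiv.Perm.mul_apply, ret_swap_mem hxU hpxU]
      exact hp d
    obtain ⟨l, θ, h1, h2, h3, h4, h5, h6⟩ := ih _ (by omega) (swap x (π x) * π) rfl hp'
    refine ⟨l, θ, h1, h2, h3, h4, ?_, ?_⟩
    · intro d hdX hdL
      have hdU : d ∉ X ∪ L := by
        rw [Finset.mem_union]
        tauto
      rw [h5 d hdX hdL, hoff d]
      · intro h
        exact hdU ((hp d).2 (by rw [h]; exact hxU))
      · intro h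
        exact hdX (by rw [π.injective h]; exact hx)
    · intro γ hγ
      have h7 := h6 γ hγ
      have h8 := hcy γ hγ
      omega
  · push Not at hA
    by_cases hB : ∃ d ∈ L, ∃ e ∈ L, ¬ π.SameCycle d e
    · obtain ⟨d, hdL, e, heL, hde⟩ := hB
      have hne : d ≠ e := by
        rintro rfl
        exact hde (Equiv.Perm.SameCycle.refl _ _)
      have hoff : ∀ y, y ∉ L → (π * swap d e) y = π y := by
        intro y hy
        rw [Equiv.Perm.mul_apply, Equiv.swap_apply_of_ne_of_ne]
        · rintro rfl
          exact hy hdL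
        · rintro rfl
          exact hy heL
      have hXL : ∀ x ∈ X, x ∉ L := fun x hx hxL =>
        (Finset.disjoint_left.1 hd) hx hxL
      have hc1 : cyc (π * swap d e) + 1 = cyc π := cyc_swap_diff π d e hde
      have hcy : ∀ γ : Perm D, cyc (π * γ) ≤ cyc (π * swap d e * γ) + 1 := by
        intro γ
        have h1 : π * swap d e * γ = (π * γ) * swap (γ⁻¹ d) (γ⁻¹ e) := by
          rw [Equiv.mul_swap_eq_swap_mul (π * γ)]
          have hg : ∀ y, γ (γ⁻¹ y) = y := fun y => by
            rw [← Equiv.Perm.mul_apply, mul_inv_cancel]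
            rfl
          rw [Equiv.Perm.mul_apply, Equiv.Perm.mul_apply, hg, hg,
            Equiv.mul_swap_eq_swap_mul π, mul_assoc]
        rw [h1]
        by_cases h2 : (π * γ).SameCycle (γ⁻¹ d) (γ⁻¹ e)
        · rw [cyc_swap_same _ _ _ (fun h => hne (γ⁻¹.injective h)) h2]
          omega
        · have := cyc_swap_diff _ _ _ h2
          omega
      have hX' : ∀ x ∈ X, (π * swap d e) x = x := by
        intro x hx
        rw [hoff x (hXL x hx)]
        exact hA x hx
      have hz : (X.filter fun y => (π * swap d e) y ≠ y).card = 0 := by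
        rw [Finset.card_eq_zero, Finset.filter_eq_empty_iff]
        intro x hx h
        exact h (hX' x hx)
      have hp' : ∀ y, y ∈ X ∪ L ↔ (π * swap d e) y ∈ X ∪ L := by
        intro y
        rw [Equiv.Perm.mul_apply, ← hp, ret_swap_mem (Finset.mem_union_right _ hdL)
          (Finset.mem_union_right _ heL)]
      obtain ⟨l, θ, h1, h2, h3, h4, h5, h6⟩ := ih _ (by omega) (π * swap d e) rfl hp'
      refine ⟨l, θ, h1, h2, h3, h4, ?_, ?_⟩
      · intro y hyX hyL
        rw [h5 y hyX hyL, hoff y hyL]
      · intro γ hγ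
        have h7 := h6 γ hγ
        have h8 := hcy γ
        omega
    · push Not at hB
      obtain ⟨l, h1, h2, h3⟩ := ret_base π X L hL hp hA hB
      exact ⟨l, π, h1, h2, h3, hA, fun _ _ _ => rfl, fun γ _ => le_rfl⟩

theorem ret (π : Perm D) (X L : Finset D) (hd : Disjoint X L) (hL : L.Nonempty)
    (hp : ∀ d, d ∈ X ∪ L ↔ π d ∈ X ∪ L) :
    ∃ (l : List D) (θ : Perm D), l.Nodup ∧ l.toFinset = L ∧ (∀ d ∈ L, θ d = l.formPerm d) ∧
      (∀ d ∈ X, θ d = d) ∧ (∀ d, d ∉ X → d ∉ L → θ d = π d) ∧
      ∀ γ : Perm D, (∀ x ∈ X, γ x = x) → cyc (π * γ) + cyc θ ≤ cyc (θ * γ) + cyc π := by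
  exact ret_aux X L hd hL _ π rfl hp

end UI39
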