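import Pool.Agent.H39.UI.Ret
import Pool.Agent.H39.UN.Prd

/-!
Module VTX. The number of vertices outside: for a full triangulation `α` and a set `F` of faces with pairs `β = inn α F`,
remaining pairs `γ = β * α`, legs `L`, `X = F \ L`, and `l`, `θ` as in `ret` for `π = f * β`; `ts` = list of the triangles
outside `F`.

Proof. `γ d = d` for `d ∈ X` (then `α d ∈ F`, `β (α d) = d`), `γ d = α d` for the other darts; `γ` is an involution (`β`, `α`
commute) without fixed points on `L ∪ (D \ F)`. `polys (l :: ts) = θ`: on `L` it is `l.formPerm` (the lists are disjoint), on the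
outside triangles `[b, f b, f f b].formPerm = f` (`lawa_fp`, `triang` in UN/LawA), and `θ d = π d = f (β d) = f d` there; on `X` both are
the identity. `π = f * β` preserves `F` and its complement.
Numbers of cycles: `cyc π = vb f α F + (2 n - s)` where `3 s = #F` (on `F` the map `π` is `stp f α F`; outside it is `f` with
`2 n - s` cycles of length 3); `cyc θ = #X + 1 + (2 n - s)`; `π * γ = f * α`. `ret`:
`cyc (f * α) + #X + 1 ≤ cyc (θ * γ) + vb f α F`. By definition `vt (l :: ts) γ = cyc (θ * γ) + (#L + (6n - 3s)) + 0 - 6 n =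
cyc (θ * γ) - #X` (`[]` does not occur: `L` is nonempty). So `cyc (f * α) + 1 ≤ vt (l :: ts) γ + vb f α F`.
`Mt`: as above. `Conn`: let `S` be closed under `polys (l :: ts) = θ` and `γ` and contain a dart of `L ∪ (D \ F)`. Let
`S' d := (d ∉ F ∧ S d) ∨ (d ∈ F ∧ ∃ e ∈ L, S e)`. `S'` is closed under `f` (outside: `θ = f`) and under `α`: `d ∉ F`, `S d`:
`α d = γ d` satisfies `S`; if it is in `F` then it is in `L`; `d ∈ F` and `S e`, `e ∈ L`: `S` contains all of `L` (`θ` is one cycle on
`L`), so if `α d ∉ F` then `d ∈ L`, `S (α d)`. `S'` is not empty, so by connectedness of `α` (`PT.con`) it is everything; `F` is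
not empty, so `L ⊆ S` and `D \ F ⊆ S`.
-/

set_option autoImplicit false

namespace UI39

open Equiv HG39 QD39 UN39

variable {D : Type} [Fintype D] [DecidableEq D]

theorem inn_apply {α : Perm D} (h : ∀ d, α (α d) = d) (F : Finset D) (d : D) :
    inn α F d = if d ∈ F ∧ α d ∈ F then α d else d := by
  unfold inn
  rw [dif_pos h]
  rfl

theorem cyc_restr {A : Perm D} {F : Finset D} (hA : ∀ d ∈ F, A d ∈ F) (hA2 : ∀ d, d ∉ F → A d = d)
    (g : D → D) (hg : ∀ d ∈ F, g d = A d) :
    cyc A = Nat.card (Quot fun a b : {d // d ∈ F} => (b : D) = g a) +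
      (Fintype.card D - F.card) := by
  classical
  have hpow : ∀ d, d ∉ F → ∀ k : ℤ, (A ^ k) d = d := fun d hd k =>
    Equiv.Perm.zpow_apply_eq_self_of_apply_eq_self (hA2 d hd) k
  have hQ : ∀ (k : ℕ) (a : {d // d ∈ F}) (b : {d // d ∈ F}), (A ^ k) a.1 = b.1 →
      Quot.mk (fun a b : {d // d ∈ F} => (b : D) = g a) a = Quot.mk _ b := by
    intro k
    induction k with
    | zero =>
      intro a b h
      rw [pow_zero, Perm.one_apply] at h
      rw [Subtype.ext h]
    | succ k ih =>
      intro a b h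
      have h1 : (A ^ k) (A a.1) = b.1 := by
        rw [← Perm.mul_apply, ← pow_succ]
        exact h
      have h2 := ih ⟨A a.1, hA a.1 a.2⟩ b h1
      rw [← h2]
      exact Quot.sound (hg a.1 a.2).symm
  let F1 : (Quot fun a b : {d // d ∈ F} => (b : D) = g a) ⊕ {d // d ∉ F} →
      Quotient (Equiv.Perm.SameCycle.setoid A) := fun x => match x with
    | Sum.inl q => Quot.lift (fun a : {d // d ∈ F} =>
        (Quotient.mk (Equiv.Perm.SameCycle.setoid A) a.1)) (by
          intro a b hab
          refine Quotient.sound ?_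
          refine ⟨1, ?_⟩
          rw [zpow_one, hab, hg a.1 a.2]) q
    | Sum.inr d => Quotient.mk (Equiv.Perm.SameCycle.setoid A) d.1
  have hbij : Function.Bijective F1 := by
    constructor
    · rintro (q | d) (q' | d') h
      · induction q using Quot.ind with
        | mk a =>
          induction q' using Quot.ind with
          | mk b =>
            have h1 : Equiv.Perm.SameCycle A a.1 b.1 := Quotient.exact h
            obtain ⟨k, _, hk⟩ := h1.exists_pow_eq'
            exact congrArg Sum.inl (hQ k a b hk)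
      · induction q using Quot.ind with
        | mk a =>
          have h1 : Equiv.Perm.SameCycle A a.1 d'.1 := Quotient.exact h
          obtain ⟨k, hk⟩ := h1.symm
          rw [hpow d'.1 d'.2] at hk
          exact absurd a.2 (hk ▸ d'.2)
      · induction q' using Quot.ind with
        | mk a =>
          have h1 : Equiv.Perm.SameCycle A d.1 a.1 := Quotient.exact h
          obtain ⟨k, hk⟩ := h1
          rw [hpow d.1 d.2] at hk
          exact absurd a.2 (hk ▸ d.2)
      · have h1 : Equiv.Perm.SameCycle A d.1 d'.1 := Quotient.exact h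
        obtain ⟨k, hk⟩ := h1
        rw [hpow d.1 d.2] at hk
        exact congrArg Sum.inr (Subtype.ext hk)
    · intro q
      obtain ⟨d, rfl⟩ := Quotient.exists_rep q
      by_cases hd : d ∈ F
      · exact ⟨Sum.inl (Quot.mk _ ⟨d, hd⟩), rfl⟩
      · exact ⟨Sum.inr ⟨d, hd⟩, rfl⟩
  have h1 := Nat.card_congr (Equiv.ofBijective F1 hbij)
  unfold cyc
  rw [← h1, Nat.card_sum]
  congr 1
  rw [Nat.card_eq_fintype_card, Fintype.card_subtype_compl, Fintype.card_coe]

theorem cyc_fp (l : List D) (hn : l.Nodup) (hl : l ≠ []) :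
    cyc l.formPerm + l.length = Fintype.card D + 1 := by
  induction l with
  | nil => exact absurd rfl hl
  | cons a w ih =>
    have h1 := cyc_cons (Z := 1) (a := a) (w := w) rfl hn
    rw [mul_one, mul_one] at h1
    cases w with
    | nil =>
      simp only [List.formPerm_singleton, List.length_singleton]
      rw [cyc_one]
    | cons x w =>
      rw [if_neg (List.cons_ne_nil x w)] at h1
      have h2 := ih (List.nodup_cons.1 hn).2 (List.cons_ne_nil x w)
      rw [List.length_cons]
      omega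

theorem fp_trans {l : List D} (hn : l.Nodup) {S : D → Prop}
    (hS : ∀ d ∈ l, S d → S (l.formPerm d)) {d e : D} (hd : d ∈ l) (he : e ∈ l) (h : S d) : S e := by
  have h1 : l.formPerm.SameCycle d e := by
    by_cases h2 : 2 ≤ l.length
    · have h3 := List.isCycle_formPerm hn h2
      refine h3.sameCycle ?_ ?_
      · exact (List.formPerm_apply_mem_ne_self_iff _ hn _ hd).2 h2
      · exact (List.formPerm_apply_mem_ne_self_iff _ hn _ he).2 h2
    · have h3 : l.length = 1 := by
        have := List.length_pos_of_mem hd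
        omega
      obtain ⟨x, rfl⟩ := List.length_eq_one_iff.1 h3
      rw [List.mem_singleton] at hd he
      rw [hd, he]
  obtain ⟨k, _, hk⟩ := h1.exists_pow_eq'
  have h2 : ∀ k : ℕ, (l.formPerm ^ k) d ∈ l ∧ S ((l.formPerm ^ k) d) := by
    intro k
    induction k with
    | zero => exact ⟨hd, h⟩
    | succ k ih =>
      rw [pow_succ', Perm.mul_apply]
      exact ⟨List.formPerm_apply_mem_of_mem ih.1, hS _ ih.1 ih.2⟩
  rw [← hk]
  exact (h2 k).2

theorem vtx {f α : Perm D} (hf : TF f) {v n s : ℕ} (hD : Fintype.card D = 6 * n) (hα : α ∈ TS f v)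
    (F : Finset D) (hF : ∀ d ∈ F, f d ∈ F) (hs : F.card = 3 * s) (hL : (legs α F).Nonempty)
    (l : List D) (θ : Perm D) (hl : l.Nodup) (hl2 : l.toFinset = legs α F)
    (h1 : ∀ d ∈ legs α F, θ d = l.formPerm d) (h2 : ∀ d ∈ F \ legs α F, θ d = d)
    (h3 : ∀ d, d ∉ F → θ d = f (inn α F d))
    (h4 : ∀ γ : Perm D, (∀ x ∈ F \ legs α F, γ x = x) →
      cyc (f * inn α F * γ) + cyc θ ≤ cyc (θ * γ) + cyc (f * inn α F))
    (rs : List D) (hr : ((rs.map fun b => [b, f b, f (f b)]).flatten).Nodup)
    (hr2 : ∀ d, d ∈ (rs.map fun b => [b, f b, f (f b)]).flatten ↔ d ∉ F) :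
    Mt (l :: rs.map fun b => [b, f b, f (f b)]) (inn α F * α) ∧
    Conn (l :: rs.map fun b => [b, f b, f (f b)]) (inn α F * α) ∧
    v + 1 ≤ vt (l :: rs.map fun b => [b, f b, f (f b)]) (inn α F * α) + vb f α F := by
  classical
  have hinv : ∀ d, α (α d) = d := hα.1.inv
  have hne : ∀ d, α d ≠ d := by
    intro d hd
    have h5 := (hα.1.leg d).1 hd
    simp [tri] at h5
  have hβ := inn_apply hinv F
  set β := inn α F with hβd
  set ts := rs.map fun b => [b, f b, f (f b)] with hts
  have hFc : ∀ d, d ∉ F → f d ∉ F := by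
    intro d hd h5
    apply hd
    rw [← hf.three d]
    exact hF _ (hF _ h5)
  have memL : ∀ d, d ∈ legs α F ↔ d ∈ F ∧ α d ∉ F := by
    intro d
    unfold legs
    rw [Finset.mem_filter]
  have memX : ∀ d, d ∈ F \ legs α F ↔ d ∈ F ∧ α d ∈ F := by
    intro d
    rw [Finset.mem_sdiff, memL]
    tauto
  have meml : ∀ d, d ∈ l ↔ d ∈ F ∧ α d ∉ F := by
    intro d
    rw [← memL, ← hl2, List.mem_toFinset]
  have hβ2 : ∀ d, β (β d) = d := by
    intro d
    by_cases h5 : d ∈ F ∧ α d ∈ F
    · rw [hβ d, if_pos h5, hβ (α d), hinv, if_pos ⟨h5.2, h5.1⟩]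
    · rw [hβ d, if_neg h5, hβ d, if_neg h5]
  have hγX : ∀ d, d ∈ F → α d ∈ F → (β * α) d = d := by
    intro d h5 h6
    rw [Perm.mul_apply, hβ (α d), hinv, if_pos ⟨h6, h5⟩]
  have hγN : ∀ d, ¬ (d ∈ F ∧ α d ∈ F) → (β * α) d = α d := by
    intro d h5
    rw [Perm.mul_apply, hβ (α d), hinv, if_neg (fun h6 => h5 ⟨h6.2, h6.1⟩)]
  -- the outside part
  have hPin : ∀ d ∈ F, polys ts d = d := by
    intro d hd
    refine polys_notMem ?_
    rw [hr2]
    exact not_not.2 hd
  have hPout : ∀ d, d ∉ F → polys ts d = f d := by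
    intro d hd
    have h5 := (hr2 d).2 hd
    rw [List.mem_flatten] at h5
    obtain ⟨m, hm, hdm⟩ := h5
    rw [(polys_on hr hm).2 d hdm]
    rw [hts, List.mem_map] at hm
    obtain ⟨b, -, rfl⟩ := hm
    exact lawa_fp hf hdm
  have hlF : ∀ d ∈ l, d ∈ F := fun d hd => ((meml d).1 hd).1
  have hθ : polys (l :: ts) = θ := by
    ext d
    rw [polys_cons, Perm.mul_apply]
    by_cases hd : d ∈ F
    · rw [hPin d hd]
      by_cases hd2 : α d ∈ F
      · rw [h2 d ((memX d).2 ⟨hd, hd2⟩), List.formPerm_apply_of_notMem]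
        rw [meml]
        tauto
      · rw [h1 d ((memL d).2 ⟨hd, hd2⟩)]
    · rw [hPout d hd, List.formPerm_apply_of_notMem (fun h5 => hFc d hd (hlF _ h5)), h3 d hd,
        hβ d, if_neg (fun h5 => hd h5.1)]
  have hθ2 : θ = l.formPerm * polys ts := by rw [← hθ, polys_cons]
  have hflat : ∀ d, d ∈ (l :: ts).flatten ↔ ¬ (d ∈ F ∧ α d ∈ F) := by
    intro d
    rw [List.flatten_cons, List.mem_append, meml, hr2]
    tauto
  have hnd : (l :: ts).flatten.Nodup := by
    rw [List.flatten_cons, List.nodup_append]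
    refine ⟨hl, hr, ?_⟩
    intro a ha b hb hab
    rw [hr2] at hb
    exact hb (hab ▸ hlF a ha)
  have hlne : l ≠ [] := by
    rintro rfl
    obtain ⟨d, hd⟩ := hL
    rw [← hl2] at hd
    simp at hd
  have hnil : [] ∉ (l :: ts) := by
    rw [List.mem_cons, not_or]
    refine ⟨fun h5 => hlne h5.symm, ?_⟩
    rw [hts, List.mem_map]
    rintro ⟨b, _, hb⟩
    simp at hb
  refine ⟨⟨?_, ?_, ?_⟩, ⟨List.cons_ne_nil _ _, Or.inr hnil, ?_⟩, ?_⟩
  · intro d
    by_cases h5 : d ∈ F ∧ α d ∈ F
    · rw [hγX d h5.1 h5.2, hγX d h5.1 h5.2]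
    · rw [hγN d h5, hγN (α d), hinv]
      rw [hinv]
      tauto
  · intro d hd
    rw [hγN d ((hflat d).1 hd)]
    exact hne d
  · intro d hd
    rw [hflat, not_not] at hd
    exact hγX d hd.1 hd.2
  · intro S hS1 hS2 hex e he
    rw [hθ] at hS1
    have hSl : ∀ d ∈ l, S d → S (l.formPerm d) := by
      intro d hd h5
      have h6 := hS1 d h5
      rwa [h1 d ((memL d).2 ((meml d).1 hd))] at h6
    have hall : ∀ d, (d ∉ F ∧ S d) ∨ (d ∈ F ∧ ∃ e ∈ l, S e) := by
      intro d
      refine hα.1.con (fun d => (d ∉ F ∧ S d) ∨ (d ∈ F ∧ ∃ e ∈ l, S e)) ?_ ?_ ?_ d (hne d)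
      · obtain ⟨d, hd, hSd⟩ := hex
        refine ⟨d, hne d, ?_⟩
        rw [hflat] at hd
        by_cases h5 : d ∈ F
        · exact Or.inr ⟨h5, d, (meml d).2 ⟨h5, fun h6 => hd ⟨h5, h6⟩⟩, hSd⟩
        · exact Or.inl ⟨h5, hSd⟩
      · rintro d (⟨h5, h6⟩ | ⟨h5, h6⟩)
        · refine Or.inl ⟨hFc d h5, ?_⟩
          have h7 := hS1 d h6
          rwa [h3 d h5, hβ d, if_neg (fun h8 => h5 h8.1)] at h7
        · exact Or.inr ⟨hF d h5, h6⟩
      · rintro d (⟨h5, h6⟩ | ⟨h5, e', h6, h7⟩)
        · have h8 := hS2 d h6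
          rw [hγN d (fun h9 => h5 h9.1)] at h8
          by_cases h9 : α d ∈ F
          · exact Or.inr ⟨h9, α d, (meml _).2 ⟨h9, by rw [hinv]; exact h5⟩, h8⟩
          · exact Or.inl ⟨h9, h8⟩
        · by_cases h9 : α d ∈ F
          · exact Or.inr ⟨h9, e', h6, h7⟩
          · have h10 : S d := fp_trans hl hSl h6 ((meml d).2 ⟨h5, h9⟩) h7
            have h11 := hS2 d h10
            rw [hγN d (fun h12 => h9 h12.2)] at h11
            exact Or.inl ⟨h9, h11⟩
    rw [hflat] at he
    rcases hall e with ⟨_, h6⟩ | ⟨h5, e', h6, h7⟩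
    · exact h6
    · exact fp_trans hl hSl h6 ((meml e).2 ⟨h5, fun h8 => he ⟨h5, h8⟩⟩) h7
  · -- counting
    have h5 := h4 (β * α) (fun x hx => by
      rw [memX] at hx
      exact hγX x hx.1 hx.2)
    have h6 : f * β * (β * α) = f * α := by
      ext d
      rw [Perm.mul_apply, Perm.mul_apply, Perm.mul_apply, hβ2, Perm.mul_apply]
    rw [h6, hα.2] at h5
    -- the part in F
    set P := polys ts with hP
    have hPinv : ∀ d ∈ F, P⁻¹ d = d := by
      intro d hd
      rw [Perm.inv_eq_iff_eq]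
      exact (hPin d hd).symm
    have hPP : ∀ d, P (P⁻¹ d) = d := fun d => P.apply_symm_apply d
    have hPinvN : ∀ d, d ∉ F → P⁻¹ d ∉ F := by
      intro d hd h7
      have h8 := hPin _ h7
      rw [hPP] at h8
      exact hd (h8 ▸ h7)
    have hA1 : ∀ d ∈ F, (f * β * P⁻¹) d = f (β d) := by
      intro d hd
      rw [Perm.mul_apply, hPinv d hd, Perm.mul_apply]
    have hA2 : ∀ d, d ∉ F → (f * β * P⁻¹) d = d := by
      intro d hd
      have h7 := hPinvN d hd
      rw [Perm.mul_apply, Perm.mul_apply, hβ, if_neg (fun h8 => h7 h8.1), ← hPout _ h7,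
        hPP]
    have hβF : ∀ d ∈ F, β d ∈ F := by
      intro d hd
      rw [hβ]
      split_ifs with h7
      · exact h7.2
      · exact hd
    have hc1 := cyc_restr (A := f * β * P⁻¹) (F := F)
      (fun d hd => by rw [hA1 d hd]; exact hF _ (hβF d hd)) hA2 (stp f α F)
      (fun d hd => by rw [hA1 d hd, stp, hβ])
    have hvb : Nat.card (Quot fun a b : {d // d ∈ F} => (b : D) = stp f α F a) = vb f α F := rfl
    rw [hvb] at hc1
    have hc2 := cyc_fp l hl hlne
    have hc3 := cyc_mul (π1 := f * β * P⁻¹) (π2 := P) (fun d => by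
      by_cases hd : d ∈ F
      · exact Or.inr (hPin d hd)
      · exact Or.inl (hA2 d hd))
    rw [inv_mul_cancel_right] at hc3
    have hc4 := cyc_mul (π1 := l.formPerm) (π2 := P) (fun d => by
      by_cases hd : d ∈ F
      · exact Or.inr (hPin d hd)
      · exact Or.inl (List.formPerm_apply_of_notMem (fun h7 => hd (hlF d h7))))
    rw [← hθ2] at hc4
    have hFD : F.card ≤ Fintype.card D := Finset.card_le_univ F
    have hlF2 : l.length ≤ F.card := by
      rw [← List.toFinset_card_of_nodup hl, hl2]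
      exact Finset.card_filter_le _ _
    have hlen : ts.flatten.length = Fintype.card D - F.card := by
      rw [← List.toFinset_card_of_nodup hr, ← Finset.card_compl]
      congr 1
      ext d
      rw [List.mem_toFinset, Finset.mem_compl]
      exact hr2 d
    have hcount : (l :: ts).count [] = 0 := List.count_eq_zero.2 hnil
    unfold vt
    rw [hθ, hcount, List.flatten_cons, List.length_append, hlen]
    omega

end UI39
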